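import Mathlib

set_option autoImplicit false

namespace Pool.Agent.Lib.MP_0d5181_co

open Finset Filter Topology

/-- The exponential sum `∑ exp (p c_m)`. -/
noncomputable def es {ι : Type} (B : Finset ι) (c : ι → ℝ) (p : ℝ) : ℝ :=
  ∑ m ∈ B, Real.exp (p * c m)

/-- Its derivative. -/
noncomputable def es' {ι : Type} (B : Finset ι) (c : ι → ℝ) (p : ℝ) : ℝ :=
  ∑ m ∈ B, c m * Real.exp (p * c m)

variable {ι : Type} {B : Finset ι} {c : ι → ℝ}

theorem es_pos (hB : B.Nonempty) (p : ℝ) : 0 < es B c p :=
  Finset.sum_pos (fun _ _ => Real.exp_pos _) hB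

theorem hasDerivAt_es (p : ℝ) : HasDerivAt (es B c) (es' B c p) p := by
  unfold es es'
  apply HasDerivAt.fun_sum
  intro m _
  have h1 : HasDerivAt (fun x : ℝ => x * c m) (c m) p := by
    simpa using (hasDerivAt_id p).mul_const (c m)
  have := h1.exp
  rw [mul_comm]
  exact this

theorem continuous_es : Continuous (es B c) := by
  unfold es
  fun_prop

theorem continuous_es' : Continuous (es' B c) := by
  unfold es'
  fun_prop

theorem hasDerivAt_tilt (e p : ℝ) : HasDerivAt (fun t => Real.exp (-e * t) * es B c t)
    (Real.exp (-e * p) * (es' B c p - e * es B c p)) p := by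
  have h1 : HasDerivAt (fun t : ℝ => -e * t) (-e) p := by
    simpa using (hasDerivAt_id p).const_mul (-e)
  have h2 := h1.exp.fun_mul (hasDerivAt_es (B := B) (c := c) p)
  refine h2.congr_deriv ?_
  ring

/-- If the derivative is positive there is a smaller value just to the left. -/
theorem exists_left {f : ℝ → ℝ} {f' x a : ℝ} (hf : HasDerivAt f f' x) (h : 0 < f') (ha : a < x) :
    ∃ t, a < t ∧ t < x ∧ f t < f x := by
  have h1 := hasDerivAt_iff_tendsto_slope.1 hf
  have h2 : ∀ᶠ t in 𝓝[≠] x, 0 < slope f x t := h1.eventually (lt_mem_nhds h)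
  have h3 : ∀ᶠ t in 𝓝[<] x, 0 < slope f x t :=
    h2.filter_mono (nhdsWithin_mono _ (fun t ht => ne_of_lt ht))
  have h4 : ∀ᶠ t in 𝓝[<] x, a < t ∧ t < x :=
    Ioo_mem_nhdsLT ha
  obtain ⟨t, ht1, ht2, ht3⟩ := (h3.and h4).exists
  refine ⟨t, ht2, ht3, ?_⟩
  rw [slope_def_field] at ht1
  have h5 : t - x < 0 := by linarith
  by_contra hcon
  push Not at hcon
  have : (f t - f x) / (t - x) ≤ 0 := div_nonpos_of_nonneg_of_nonpos (by linarith) h5.le
  linarith

theorem exists_right {f : ℝ → ℝ} {f' x : ℝ} (hf : HasDerivAt f f' x) (h : f' < 0) :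
    ∃ t, x < t ∧ f t < f x := by
  have h1 := hasDerivAt_iff_tendsto_slope.1 hf
  have h2 : ∀ᶠ t in 𝓝[≠] x, slope f x t < 0 := h1.eventually (gt_mem_nhds h)
  have h3 : ∀ᶠ t in 𝓝[>] x, slope f x t < 0 :=
    h2.filter_mono (nhdsWithin_mono _ (fun t ht => (ne_of_lt ht).symm))
  have h4 : ∀ᶠ t in 𝓝[>] x, x < t := self_mem_nhdsWithin
  obtain ⟨t, ht1, ht2⟩ := (h3.and h4).exists
  refine ⟨t, ht2, ?_⟩
  rw [slope_def_field] at ht1
  have h5 : 0 < t - x := by linarith
  by_contra hcon
  push Not at hcon
  have : 0 ≤ (f t - f x) / (t - x) := div_nonneg (by linarith) h5.le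
  linarith

/-- The basic dichotomy on exponents. -/
theorem dichotomy (hB : B.Nonempty) {ε : ℝ} (hε : 0 < ε) :
    (∃ q p q' δ : ℝ, 0 ≤ q ∧ q < p ∧ p < q' ∧ 0 < p ∧ p < 1 ∧ 0 < δ ∧
      Real.exp (δ * (p - q)) * es B c q < es B c p ∧
      Real.exp (-(ε / p) * (q' - p)) * es B c q' < es B c p) ∨
    (∃ s : ℝ, 0 < s ∧ Real.exp (-ε * s) * es B c (1 + s) < es B c 1) := by
  by_cases h1 : es' B c 1 < ε * es B c 1
  · right
    obtain ⟨t, ht, h2⟩ := exists_right (hasDerivAt_tilt (B := B) (c := c) ε 1)
      (mul_neg_of_pos_of_neg (Real.exp_pos _) (by linarith))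
    refine ⟨t - 1, by linarith, ?_⟩
    have h3 : Real.exp (-ε * t) = Real.exp (-ε * (t - 1)) * Real.exp (-ε * 1) := by
      rw [← Real.exp_add]; congr 1; ring
    rw [h3] at h2
    have h4 : 1 + (t - 1) = t := by ring
    rw [h4]
    have h5 := Real.exp_pos (-ε * 1)
    by_contra hcon
    push Not at hcon
    have := mul_le_mul_of_nonneg_left hcon h5.le
    nlinarith
  · left
    push Not at h1
    have hd1 : 0 < es' B c 1 := lt_of_lt_of_le (mul_pos hε (es_pos hB 1)) h1
    -- the largest minimiser
    obtain ⟨p0, hp0, hmin⟩ := (isCompact_Icc (a := (0 : ℝ)) (b := 1)).exists_isMinOn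
      ⟨0, by simp⟩ (continuous_es (B := B) (c := c)).continuousOn
    set K : Set ℝ := Set.Icc 0 1 ∩ (es B c) ⁻¹' {es B c p0} with hK
    have hKc : IsCompact K := isCompact_Icc.inter_right
      (IsClosed.preimage continuous_es isClosed_singleton)
    have hKn : K.Nonempty := ⟨p0, hp0, rfl⟩
    obtain ⟨q, hqK, hqmax⟩ := hKc.exists_isGreatest hKn
    have hqv : es B c q = es B c p0 := hqK.2
    have hqmin : ∀ t, 0 ≤ t → t ≤ 1 → es B c q ≤ es B c t := by
      intro t h0 h1
      rw [hqv]
      exact hmin ⟨h0, h1⟩
    have hq0 : 0 ≤ q := hqK.1.1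
    have hq1 : q < 1 := by
      rcases lt_or_eq_of_le hqK.1.2 with h | h
      · exact h
      · exfalso
        obtain ⟨t, h2, h3, h4⟩ := exists_left (hasDerivAt_es (B := B) (c := c) 1) hd1
          (a := 0) (by norm_num)
        have := hqmin t h2.le h3.le
        rw [h] at this
        linarith
    have hgt : ∀ t, q < t → t ≤ 1 → es B c q < es B c t := by
      intro t h2 h3
      rcases lt_or_eq_of_le (hqmin t (by linarith) h3) with h | h
      · exact h
      · exfalso
        have : t ∈ K := ⟨⟨by linarith, h3⟩, by simp [← h, hqv]⟩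
        have := hqmax this
        linarith
    have hqd : q * es' B c q = 0 := by
      rcases eq_or_lt_of_le hq0 with h | h
      · rw [← h, zero_mul]
      · have hloc : IsLocalMin (es B c) q := by
          filter_upwards [Icc_mem_nhds h hq1] with t ht
          exact hqmin t ht.1 ht.2
        rw [hloc.hasDerivAt_eq_zero (hasDerivAt_es q), mul_zero]
    -- a right neighbourhood
    have hcont : Continuous fun t => t * es' B c t - ε * es B c t :=
      (continuous_id.mul continuous_es').sub (continuous_const.mul continuous_es)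
    have hneg : (fun t => t * es' B c t - ε * es B c t) q < 0 := by
      simp only
      rw [hqd]
      have := mul_pos hε (es_pos (c := c) hB q)
      linarith
    have hev : ∀ᶠ t in 𝓝 q, t * es' B c t - ε * es B c t < 0 :=
      hcont.continuousAt.eventually (gt_mem_nhds hneg)
    obtain ⟨r, hr, hball⟩ := Metric.eventually_nhds_iff.1 hev
    set r' := min r (1 - q) with hr'
    have hr'0 : 0 < r' := lt_min hr (by linarith)
    have hr'1 : r' ≤ r := min_le_left _ _
    have hr'2 : r' ≤ 1 - q := min_le_right _ _
    set p := q + r' / 3 with hp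
    set q' := q + 2 * (r' / 3) with hq'
    have hpos : ∀ t, p ≤ t → t ≤ q' → es' B c t - (ε / p) * es B c t < 0 := by
      intro t h2 h3
      have hp0 : 0 < p := by linarith
      have h4 : t * es' B c t - ε * es B c t < 0 := by
        apply hball
        rw [Real.dist_eq, abs_lt]
        constructor <;> linarith
      have h5 := es_pos (c := c) hB t
      rcases le_or_gt (es' B c t) 0 with h6 | h6
      · have : 0 < ε / p * es B c t := mul_pos (div_pos hε hp0) h5
        linarith
      · have h7 : p * es' B c t ≤ t * es' B c t := mul_le_mul_of_nonneg_right h2 h6.le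
        have h8 : p * (es' B c t - (ε / p) * es B c t) < 0 := by
          have : p * (es' B c t - (ε / p) * es B c t) = p * es' B c t - ε * es B c t := by
            field_simp
          rw [this]; linarith
        by_contra hcon
        push Not at hcon
        have := mul_nonneg hp0.le hcon
        linarith
    have hanti : StrictAntiOn (fun t => Real.exp (-(ε / p) * t) * es B c t) (Set.Icc p q') := by
      apply strictAntiOn_of_deriv_neg (convex_Icc p q')
      · exact (((continuous_const.mul continuous_id).rexp).mul continuous_es).continuousOn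
      · intro t ht
        rw [interior_Icc] at ht
        rw [(hasDerivAt_tilt (ε / p) t).deriv]
        exact mul_neg_of_pos_of_neg (Real.exp_pos _) (hpos t ht.1.le ht.2.le)
    have hpq' : p < q' := by rw [hp, hq']; linarith
    have hlt := hanti ⟨le_rfl, hpq'.le⟩ ⟨hpq'.le, le_rfl⟩ hpq'
    have hqp : q < p := by rw [hp]; linarith
    have hp1 : p < 1 := by rw [hp]; linarith
    have hfq := es_pos (c := c) hB q
    have hfp := es_pos (c := c) hB p
    have hlog : 0 < Real.log (es B c p) - Real.log (es B c q) := by
      have := Real.log_lt_log hfq (hgt p hqp hp1.le)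
      linarith
    refine ⟨q, p, q', (Real.log (es B c p) - Real.log (es B c q)) / (2 * (p - q)), hq0, hqp, hpq',
      by linarith, hp1, div_pos hlog (by linarith), ?_, ?_⟩
    · have h2 : (Real.log (es B c p) - Real.log (es B c q)) / (2 * (p - q)) * (p - q) =
          (Real.log (es B c p) - Real.log (es B c q)) / 2 := by
        have : p - q ≠ 0 := by linarith
        field_simp
      rw [h2]
      calc Real.exp ((Real.log (es B c p) - Real.log (es B c q)) / 2) * es B c q
          < Real.exp (Real.log (es B c p) - Real.log (es B c q)) * es B c q := by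
            apply mul_lt_mul_of_pos_right _ hfq
            apply Real.exp_lt_exp.2
            linarith
        _ = es B c p := by
            rw [Real.exp_sub, Real.exp_log hfp, Real.exp_log hfq]
            field_simp
    · have h3 : Real.exp (-(ε / p) * q') = Real.exp (-(ε / p) * (q' - p)) *
          Real.exp (-(ε / p) * p) := by
        rw [← Real.exp_add]; congr 1; ring
      simp only at hlt
      rw [h3] at hlt
      have h5 := Real.exp_pos (-(ε / p) * p)
      by_contra hcon
      push Not at hcon
      have := mul_le_mul_of_nonneg_left hcon h5.le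
      nlinarith

end Pool.Agent.Lib.MP_0d5181_co
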