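import Pool.Agent.Lib.MP_0d5181_co.Setup

set_option autoImplicit false

namespace Pool.Agent.Lib.MP_0d5181_co

open Finset Filter Topology

variable {A : Finset ℤ} {α : ℤ → ℝ} {k : ℤ}

/-- Abbreviation: the mass. -/
noncomputable def mass (A : Finset ℤ) (α : ℤ → ℝ) : ℝ := ∑ i ∈ A, α i

theorem es_one (hD : Data A α) : es (BB A k) (lg A α k) 1 = mass A α ^ 2 := by
  have h1 : es (BB A k) (lg A α k) 1 = ∑ m ∈ BB A k, gam A α k m := by
    unfold es
    apply Finset.sum_congr rfl
    intro m hm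
    rw [one_mul, lg, Real.exp_log (gam_pos hD hm)]
  rw [h1, mass, sq]
  unfold gam
  rw [Finset.sum_comm, Finset.sum_mul]
  apply Finset.sum_congr rfl
  intro j hj
  rw [← Finset.mul_sum]
  congr 1
  -- `m ↦ m - k j` is injective and covers `A`
  have h2 : A = ((BB A k).filter fun m => m - k * j ∈ A).image (fun m => m - k * j) := by
    ext i
    rw [mem_image]
    constructor
    · intro hi
      refine ⟨i + k * j, ?_, by ring⟩
      rw [mem_filter, BB, Finset.mem_image₂]
      exact ⟨⟨i, hi, j, hj, rfl⟩, by simpa using hi⟩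
    · rintro ⟨m, hm, rfl⟩
      exact (mem_filter.1 hm).2
  conv_rhs => rw [h2]
  rw [Finset.sum_image]
  · symm
    apply Finset.sum_subset (Finset.filter_subset _ _)
    intro m hm hm'
    rw [mem_filter, not_and] at hm'
    exact hD.zero _ (hm' hm)
  · intro x _ y _ h
    simp only at h
    linarith

theorem nonempty_A (hD : Data A α) : A.Nonempty := by
  rw [Finset.nonempty_iff_ne_empty]
  intro h
  have := hD.big
  rw [h] at this
  simp at this
  linarith

theorem nonempty_BB (hD : Data A α) : (BB A k).Nonempty := by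
  obtain ⟨i, hi⟩ := nonempty_A hD
  exact ⟨i + k * i, Finset.mem_image₂.2 ⟨i, hi, i, hi, rfl⟩⟩

/-- The mass is at most every power sum with exponent in `(0, 1)`. -/
theorem mass_le_es (hD : Data A α) {p : ℝ} (hp0 : 0 < p) (hp1 : p < 1) :
    mass A α ≤ es (BB A k) (lg A α k) p := by
  have ha : 1 < mass A α := hD.big
  have ha0 : 0 < mass A α := by linarith
  have h1 : ∀ m ∈ BB A k, Real.exp (lg A α k m) * Real.exp ((p - 1) * Real.log (mass A α)) ≤
      Real.exp (p * lg A α k m) := by
    intro m hm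
    rw [← Real.exp_add]
    apply Real.exp_le_exp.2
    have h2 : lg A α k m ≤ Real.log (mass A α) :=
      Real.log_le_log (gam_pos hD hm) (gam_le hD m)
    nlinarith
  have h2 := Finset.sum_le_sum h1
  rw [← Finset.sum_mul] at h2
  have h3 : ∑ m ∈ BB A k, Real.exp (lg A α k m) = mass A α ^ 2 := by
    rw [← es_one (k := k) hD, es]
    simp
  rw [h3] at h2
  refine le_trans ?_ h2
  have h4 : Real.exp ((p - 1) * Real.log (mass A α)) = mass A α ^ (p - 1) := by
    rw [Real.rpow_def_of_pos ha0, mul_comm]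
  rw [h4]
  have h5 : mass A α ^ 2 * mass A α ^ (p - 1) = mass A α ^ (1 + p) := by
    rw [← Real.rpow_natCast, ← Real.rpow_add ha0]
    congr 1; push_cast; ring
  rw [h5]
  calc mass A α = mass A α ^ (1 : ℝ) := (Real.rpow_one _).symm
    _ ≤ _ := Real.rpow_le_rpow_of_exponent_le ha.le (by linarith)

theorem cnt_univ {n : ℕ} {S : Finset (Fin n → ℤ)} (hS : S ∈ (Bn A n).powerset) :
    cnt (Bn A n) (fun y => {y}) S = S.card := by
  rw [mem_powerset] at hS
  unfold cnt
  simp only [Finset.singleton_subset_iff]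
  rw [Finset.sum_ite_mem, Finset.inter_eq_right.2 hS]
  simp

/-- The expected size of the random set. -/
theorem Ex_card (hD : Data A α) (n : ℕ) :
    Ex (Bn A n) (wt α) (fun S => (S.card : ℝ)) = mass A α ^ n := by
  have h1 : Ex (Bn A n) (wt α) (fun S => (S.card : ℝ)) =
      Ex (Bn A n) (wt α) (cnt (Bn A n) (fun y => {y})) := by
    unfold Ex
    apply Finset.sum_congr rfl
    intro S hS
    rw [cnt_univ hS]
  rw [h1, Ex_cnt _ _ _ _ (fun y hy => by simpa using hy), mean]
  simp only [Finset.prod_singleton]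
  exact sum_wt A α n

/-- Concentration of the size. -/
theorem size_bad (hD : Data A α) (n : ℕ) :
    Pr (Bn A n) (wt α) (fun S => ¬ (mass A α ^ n / 2 ≤ S.card ∧ (S.card : ℝ) ≤
      3 * mass A α ^ n / 2)) ≤ 4 / mass A α ^ n := by
  have ha : 1 < mass A α := hD.big
  have hM : 0 < mass A α ^ n := pow_pos (by linarith) n
  have hmean : mean (wt α) (Bn A n) (fun y : Fin n → ℤ => {y}) = mass A α ^ n := by
    rw [mean]
    simp only [Finset.prod_singleton]
    exact sum_wt A α n
  have hvar := Ex_var (Bn A n) (wt α) (unit hD) (Bn A n) (fun y => {y})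
    (fun y hy => by simpa using hy) 1 (fun y _ => by
      rw [Finset.card_le_one]
      intro z hz z' hz'
      simp only [mem_filter, Finset.disjoint_singleton, not_not] at hz hz'
      rw [← hz.2, ← hz'.2])
  rw [hmean] at hvar
  have := markov (unit (n := n) hD) (fun S => (cnt (Bn A n) (fun y => {y}) S - mass A α ^ n) ^ 2)
    (fun S _ => sq_nonneg _) (c := (mass A α ^ n / 2) ^ 2) (by positivity)
    (E := fun S => ¬ (mass A α ^ n / 2 ≤ S.card ∧ (S.card : ℝ) ≤ 3 * mass A α ^ n / 2))
    (fun S hS hE => by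
      rw [cnt_univ hS]
      rw [not_and_or, not_le, not_le] at hE
      rcases hE with h | h
      · nlinarith
      · nlinarith)
  refine this.trans ?_
  rw [div_le_div_iff₀ (by positivity) hM]
  push_cast at hvar
  nlinarith

/-- The expected size of the sumset. -/
theorem Ex_dil (hD : Data A α) (hk : k ≠ 0) (n : ℕ) {p : ℝ} (hp0 : 0 < p) (hp1 : p < 1) :
    Ex (Bn A n) (wt α) (fun S => ((dil k S).card : ℝ)) ≤
      mass A α ^ n + es (BB A k) (lg A α k) p ^ n := by
  refine (Ex_mono (unit hD) (fun S hS => dil_card_le hS)).trans ?_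
  rw [Ex_add, Ex_card hD, Ex_sum, ← sum_exp_ell]
  gcongr with x hx
  have hm0 := mean_nonneg (A := A) (k := k) hD x
  have hm1 := mean_le (k := k) hD hx
  have h1 : Ex (Bn A n) (wt α) (fun S => if 1 ≤ cnt (II A k x) (TT k x) S then (1 : ℝ) else 0) ≤
      1 := by
    refine (Ex_mono (unit hD) (G := fun _ => 1) (fun S _ => ?_)).trans (Ex_one _ _).le
    split_ifs <;> norm_num
  have h2 : Ex (Bn A n) (wt α) (fun S => if 1 ≤ cnt (II A k x) (TT k x) S then (1 : ℝ) else 0) ≤
      Real.exp (ell (lg A α k) x) := by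
    refine le_trans ?_ hm1
    rw [← Ex_cnt (Bn A n) (wt α) (II A k x) (TT k x) (fun z hz => TT_subset hz)]
    apply Ex_mono (unit hD)
    intro S _
    split_ifs with h
    · exact h
    · exact cnt_nonneg _ _ _
  rcases le_or_gt 0 (ell (lg A α k) x) with h | h
  · refine h1.trans ?_
    rw [← Real.exp_zero]
    apply Real.exp_le_exp.2
    positivity
  · refine h2.trans ?_
    apply Real.exp_le_exp.2
    nlinarith

/-- The sumset is not too large. -/
theorem upper_bad (hD : Data A α) (hk : k ≠ 0) {ε σ : ℝ} (hε : 0 < ε)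
    (hσ : ∀ p, 0 < p → p < 1 → σ ≤ es (BB A k) (lg A α k) p) (hmσ : mass A α ≤ σ)
    (hσ' : ∃ p, 0 < p ∧ p < 1 ∧ es (BB A k) (lg A α k) p ≤ σ * Real.exp ε) (n : ℕ) :
    Pr (Bn A n) (wt α) (fun S => ¬ ((dil k S).card : ℝ) ≤ 2 * σ ^ n * Real.exp (2 * ε * n)) ≤
      Real.exp (-ε * n) := by
  obtain ⟨p, hp0, hp1, hp⟩ := hσ'
  have ha : 1 < mass A α := hD.big
  have hσ0 : 0 < σ := by linarith
  have h1 := Ex_dil (k := k) hD hk n hp0 hp1
  have h2 : mass A α ^ n + es (BB A k) (lg A α k) p ^ n ≤ 2 * (σ * Real.exp ε) ^ n := by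
    have e1 : mass A α ^ n ≤ (σ * Real.exp ε) ^ n := by
      apply pow_le_pow_left₀ (by linarith)
      have : 1 ≤ Real.exp ε := Real.one_le_exp hε.le
      nlinarith
    have e2 : es (BB A k) (lg A α k) p ^ n ≤ (σ * Real.exp ε) ^ n :=
      pow_le_pow_left₀ (es_pos (nonempty_BB hD) p).le hp n
    linarith
  have h3 := markov (unit (n := n) hD) (fun S => ((dil k S).card : ℝ)) (fun S _ => by positivity)
    (c := 2 * σ ^ n * Real.exp (2 * ε * n)) (by positivity)
    (E := fun S => ¬ ((dil k S).card : ℝ) ≤ 2 * σ ^ n * Real.exp (2 * ε * n))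
    (fun S _ hE => (not_le.1 hE).le)
  refine h3.trans ?_
  rw [div_le_iff₀ (by positivity)]
  refine h1.trans (h2.trans ?_)
  rw [mul_pow]
  have e3 : Real.exp ε ^ n = Real.exp (-ε * n) * Real.exp (2 * ε * n) := by
    rw [← Real.exp_nat_mul, ← Real.exp_add]; congr 1; ring
  rw [e3]
  apply le_of_eq
  ring

end Pool.Agent.Lib.MP_0d5181_co
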