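import Pool.Agent.Lib.MP_0d5181_co.Lower

set_option autoImplicit false

namespace Pool.Agent.Lib.MP_0d5181_co

open Finset Filter Topology

/-- Base `b` expansion. -/
def psi (b : ℤ) {n : ℕ} (y : Fin n → ℤ) : ℤ := ∑ i, y i * b ^ (i : ℕ)

theorem psi_add (b k : ℤ) {n : ℕ} (y z : Fin n → ℤ) :
    psi b (y + k • z) = psi b y + k * psi b z := by
  unfold psi
  rw [Finset.mul_sum, ← Finset.sum_add_distrib]
  apply Finset.sum_congr rfl
  intro i _
  simp
  ring

theorem psi_inj (b R : ℤ) (hR : 0 ≤ R) (hb : 2 * R < b) : ∀ (n : ℕ) (y z : Fin n → ℤ),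
    (∀ i, |y i| ≤ R) → (∀ i, |z i| ≤ R) → psi b y = psi b z → y = z := by
  intro n
  induction n with
  | zero => intro y z _ _ _; funext i; exact i.elim0
  | succ n ih =>
    intro y z hy hz h
    have hsucc : ∀ y : Fin (n + 1) → ℤ, psi b y = y 0 + b * psi b (fun i : Fin n => y i.succ) := by
      intro y
      unfold psi
      rw [Fin.sum_univ_succ, Finset.mul_sum]
      congr 1
      · simp
      · apply Finset.sum_congr rfl
        intro i _
        rw [Fin.val_succ, pow_succ]; ring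
    rw [hsucc y, hsucc z] at h
    have h0 : y 0 - z 0 = 0 := by
      apply Int.eq_zero_of_abs_lt_dvd (m := b)
      · exact ⟨psi b (fun i : Fin n => z i.succ) - psi b (fun i : Fin n => y i.succ), by
          rw [mul_sub]; linarith⟩
      · have h1 := hy 0
        have h2 := hz 0
        rw [abs_le] at h1 h2
        rw [abs_lt]
        constructor <;> linarith
    have h1 : b * psi b (fun i : Fin n => y i.succ) = b * psi b (fun i : Fin n => z i.succ) := by
      linarith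
    have hb0 : b ≠ 0 := by omega
    have h2 := ih _ _ (fun i => hy i.succ) (fun i => hz i.succ) (mul_left_cancel₀ hb0 h1)
    funext i
    refine Fin.cases ?_ ?_ i
    · linarith
    · intro j
      exact congrFun h2 j

/-- Transfer of a set in `ℤⁿ` to the integers. -/
theorem transfer (A : Finset ℤ) (N : ℕ) {n : ℕ} (S : Finset (Fin n → ℤ))
    (hS : S ∈ (Bn A n).powerset) : ∃ S' : Finset ℤ, S'.card = S.card ∧
      ∀ k : ℤ, |k| ≤ N → ((S' ×ˢ S').image fun q => q.1 + k * q.2).card = (dil k S).card := by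
  rw [mem_powerset] at hS
  obtain ⟨R, hR0, hR⟩ : ∃ R : ℤ, 0 ≤ R ∧ ∀ i ∈ A, |i| ≤ R := by
    refine ⟨∑ i ∈ A, |i|, Finset.sum_nonneg fun _ _ => abs_nonneg _, ?_⟩
    intro i hi
    exact Finset.single_le_sum (f := fun i : ℤ => |i|) (fun _ _ => abs_nonneg _) hi
  set R' : ℤ := R + N * R with hR'
  have hR'0 : 0 ≤ R' := by positivity
  have hRR' : R ≤ R' := by
    have : 0 ≤ (N : ℤ) * R := by positivity
    linarith
  set b : ℤ := 2 * R' + 1 with hb
  have hbd : ∀ y ∈ S, ∀ i, |y i| ≤ R := fun y hy i => hR _ (mem_Bn.1 (hS hy) i)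
  have hinj : ∀ y z : Fin n → ℤ, (∀ i, |y i| ≤ R') → (∀ i, |z i| ≤ R') → psi b y = psi b z →
      y = z := psi_inj b R' hR'0 (by omega) n
  refine ⟨S.image (psi b), ?_, ?_⟩
  · apply Finset.card_image_of_injOn
    intro y hy z hz h
    exact hinj y z (fun i => (hbd y hy i).trans hRR') (fun i => (hbd z hz i).trans hRR') h
  · intro k hk
    have h1 : ((S.image (psi b) ×ˢ S.image (psi b)).image fun q => q.1 + k * q.2) =
        (dil k S).image (psi b) := by
      ext t
      simp only [mem_image, mem_product, Prod.exists, dil, Finset.mem_image₂]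
      constructor
      · rintro ⟨a, c, ⟨⟨y, hy, rfl⟩, ⟨z, hz, rfl⟩⟩, rfl⟩
        exact ⟨y + k • z, ⟨y, hy, z, hz, rfl⟩, psi_add b k y z⟩
      · rintro ⟨x, ⟨y, hy, z, hz, rfl⟩, rfl⟩
        exact ⟨psi b y, psi b z, ⟨⟨y, hy, rfl⟩, ⟨z, hz, rfl⟩⟩, (psi_add b k y z).symm⟩
    rw [h1]
    apply Finset.card_image_of_injOn
    have hbd2 : ∀ x ∈ dil k S, ∀ i, |x i| ≤ R' := by
      intro x hx i
      rw [dil, Finset.mem_image₂] at hx
      obtain ⟨y, hy, z, hz, rfl⟩ := hx
      have h2 := hbd y hy i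
      have h3 := hbd z hz i
      have h4 : |k * z i| ≤ N * R := by
        rw [abs_mul]
        exact mul_le_mul hk h3 (abs_nonneg _) (by positivity)
      calc |(y + k • z) i| = |y i + k * z i| := by simp
        _ ≤ |y i| + |k * z i| := abs_add_le _ _
        _ ≤ R' := by linarith
    intro x hx x' hx' h
    exact hinj x x' (hbd2 x hx) (hbd2 x' hx') h

/-- The infimum over the open interval is at most the value at one. -/
theorem iInf_le_one {g : ℝ → ℝ} (hg : Continuous g) (h0 : ∀ p, 0 ≤ g p) :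
    (⨅ p : Set.Ioo (0 : ℝ) 1, g p) ≤ g 1 := by
  have hlim : Tendsto g (𝓝[<] 1) (𝓝 (g 1)) := (hg.tendsto 1).mono_left nhdsWithin_le_nhds
  have hb : BddBelow (Set.range fun p : Set.Ioo (0 : ℝ) 1 => g p) :=
    ⟨0, by rintro _ ⟨p, rfl⟩; exact h0 _⟩
  apply ge_of_tendsto hlim
  filter_upwards [Ioo_mem_nhdsLT (show (0 : ℝ) < 1 by norm_num)] with p hp
  exact ciInf_le hb ⟨p, hp⟩

/-- The final numerical estimate. -/
theorem ratio_estimate {L s X Y n e e0 : ℝ} (hL : 0 < L) (hs0 : 0 ≤ s) (hs : s ≤ 2 * L)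
    (hY : |Y - n * L| ≤ Real.log 2) (hX : |X - n * s| ≤ 2 * e * n + Real.log 256)
    (he : 2 * e ≤ e0 * L / 4) (hn0 : 0 ≤ n)
    (hn : 2 * Real.log 2 + Real.log 256 ≤ e0 * L / 4 * n)
    (hn2 : 2 * Real.log 2 < n * L) (he0 : 0 < e0) : |s / L - X / Y| < e0 := by
  have hl2 : 0 < Real.log 2 := Real.log_pos (by norm_num)
  rw [abs_le] at hY hX
  have hYpos : n * L / 2 < Y := by linarith
  have hY0 : 0 < Y := by
    have : 0 ≤ n * L := by positivity
    linarith
  have h1 : s / L - X / Y = (s * (Y - n * L) - L * (X - n * s)) / (L * Y) := by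
    field_simp
    ring
  rw [h1, abs_div, abs_of_pos (mul_pos hL hY0), div_lt_iff₀ (mul_pos hL hY0), abs_lt]
  have h2 : s * (Y - n * L) ≤ 2 * L * Real.log 2 := by
    calc s * (Y - n * L) ≤ s * Real.log 2 := mul_le_mul_of_nonneg_left hY.2 hs0
      _ ≤ 2 * L * Real.log 2 := mul_le_mul_of_nonneg_right hs hl2.le
  have h3 : -(2 * L * Real.log 2) ≤ s * (Y - n * L) := by
    have : s * (-Real.log 2) ≤ s * (Y - n * L) := mul_le_mul_of_nonneg_left hY.1 hs0
    have h4 : s * Real.log 2 ≤ 2 * L * Real.log 2 := mul_le_mul_of_nonneg_right hs hl2.le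
    linarith
  have h4 : L * (X - n * s) ≤ L * (2 * e * n + Real.log 256) :=
    mul_le_mul_of_nonneg_left hX.2 hL.le
  have h5 : L * (-(2 * e * n + Real.log 256)) ≤ L * (X - n * s) :=
    mul_le_mul_of_nonneg_left hX.1 hL.le
  have h6 : 2 * e * n ≤ e0 * L / 4 * n := mul_le_mul_of_nonneg_right he hn0
  have h7 : L * (2 * Real.log 2 + Real.log 256 + 2 * e * n) ≤ L * (e0 * L / 2 * n) := by
    apply mul_le_mul_of_nonneg_left _ hL.le
    linarith
  have h8 : L * (e0 * L / 2 * n) < e0 * (L * Y) := by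
    have : e0 * L * (n * L / 2) < e0 * L * Y := mul_lt_mul_of_pos_left hYpos (by positivity)
    linarith
  constructor <;> linarith

theorem log_bounds {x y c C : ℝ} (hy : 0 < y) (hc : 0 < c) (h1 : y / c ≤ x)
    (h2 : x ≤ C * y) (hC : 0 < C) : -Real.log c ≤ Real.log x - Real.log y ∧
      Real.log x - Real.log y ≤ Real.log C := by
  have hx : 0 < x := lt_of_lt_of_le (div_pos hy hc) h1
  constructor
  · have := Real.log_le_log (div_pos hy hc) h1
    rw [Real.log_div hy.ne' hc.ne'] at this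
    linarith
  · have := Real.log_le_log hx h2
    rw [Real.log_mul hC.ne' hy.ne'] at this
    linarith

/-- The main theorem in terms of power sums. -/
theorem main {A : Finset ℤ} {α : ℤ → ℝ} (hD : Data A α) (N : ℕ) {e0 : ℝ} (he0 : 0 < e0) :
    ∃ S : Finset ℤ, 2 ≤ S.card ∧ ∀ k : ℤ, 1 ≤ |k| → |k| ≤ N →
      |Real.log (⨅ p : Set.Ioo (0 : ℝ) 1, es (BB A k) (lg A α k) p) / Real.log (mass A α) -
        Real.log (((S ×ˢ S).image fun q => q.1 + k * q.2).card) / Real.log S.card| < e0 := by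
  have ha : 1 < mass A α := hD.big
  have ha0 : 0 < mass A α := by linarith
  set a := mass A α with hadef
  set L := Real.log a with hL
  have hL0 : 0 < L := Real.log_pos ha
  set σ : ℤ → ℝ := fun k => ⨅ p : Set.Ioo (0 : ℝ) 1, es (BB A k) (lg A α k) p with hσdef
  have hne : Nonempty (Set.Ioo (0 : ℝ) 1) := ⟨⟨1 / 2, by norm_num, by norm_num⟩⟩
  have hbdd : ∀ k, BddBelow (Set.range fun p : Set.Ioo (0 : ℝ) 1 =>
      es (BB A k) (lg A α k) p) := fun k =>
    ⟨0, by rintro _ ⟨p, rfl⟩; exact (es_pos (nonempty_BB hD) _).le⟩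
  have hσle : ∀ k p, 0 < p → p < 1 → σ k ≤ es (BB A k) (lg A α k) p := fun k p h0 h1 =>
    ciInf_le (hbdd k) ⟨p, h0, h1⟩
  have hσa : ∀ k, a ≤ σ k := fun k => le_ciInf fun p => mass_le_es hD p.2.1 p.2.2
  have hσ0 : ∀ k, 0 < σ k := fun k => lt_of_lt_of_le ha0 (hσa k)
  have hσ1 : ∀ k, σ k ≤ es (BB A k) (lg A α k) 1 := fun k =>
    iInf_le_one continuous_es fun p => (es_pos (nonempty_BB hD) p).le
  have hσ2 : ∀ k, σ k ≤ a ^ 2 := fun k => by rw [← es_one (k := k) hD]; exact hσ1 k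
  -- the tolerance
  obtain ⟨ε, hε, hε1, hε2⟩ : ∃ ε : ℝ, 0 < ε ∧ ε < L ∧ 2 * ε ≤ e0 * L / 4 := by
    refine ⟨min (L / 2) (e0 * L / 8), lt_min (by positivity) (by positivity), ?_, ?_⟩
    · exact lt_of_le_of_lt (min_le_left _ _) (by linarith)
    · have := min_le_right (L / 2) (e0 * L / 8)
      linarith
  have hεa : Real.exp ε < a := by
    rw [← Real.exp_log ha0]
    exact Real.exp_lt_exp.2 hε1
  have hσup : ∀ k, ∃ p, 0 < p ∧ p < 1 ∧ es (BB A k) (lg A α k) p ≤ σ k * Real.exp ε := by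
    intro k
    have h1 : (⨅ p : Set.Ioo (0 : ℝ) 1, es (BB A k) (lg A α k) p) < σ k * Real.exp ε := by
      have h2 : 1 < Real.exp ε := Real.one_lt_exp_iff.2 hε
      have h3 := mul_lt_mul_of_pos_left h2 (hσ0 k)
      rw [mul_one] at h3
      exact h3
    obtain ⟨p, hp⟩ := exists_lt_of_ciInf_lt h1
    exact ⟨p, p.2.1, p.2.2, hp.le⟩
  set K : Finset ℤ := (Finset.Icc (-(N : ℤ)) N).filter (fun k => k ≠ 0) with hK
  have hKm : ∀ k : ℤ, 1 ≤ |k| → |k| ≤ N → k ∈ K := by
    intro k h1 h2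
    rw [hK, mem_filter, mem_Icc]
    rw [abs_le] at h2
    refine ⟨h2, ?_⟩
    rintro rfl
    simp at h1
  obtain ⟨η, hη, hηK⟩ : ∃ η : ℝ, 0 < η ∧ (2 * K.card : ℝ) * η ≤ 1 / 4 := by
    refine ⟨1 / (8 * (K.card + 1)), by positivity, ?_⟩
    rw [mul_one_div, div_le_div_iff₀ (by positivity) (by norm_num)]
    have : (0 : ℝ) ≤ K.card := Nat.cast_nonneg _
    linarith
  have hlow : ∀ k ∈ K, ∀ᶠ n : ℕ in atTop, Pr (Bn A n) (wt α) (fun S => ((dil k S).card : ℝ) <
      σ k ^ n * Real.exp (-(2 * ε) * n) / 256) ≤ η := by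
    intro k hk
    have hk0 : k ≠ 0 := (mem_filter.1 hk).2
    rcases dichotomy (c := lg A α k) (nonempty_BB (k := k) hD) hε with
      ⟨q, p, q', δ, _, h2, h3, h4, h5, h6, h7, h8⟩ | ⟨s, h2, h3⟩
    · exact lower_bad_A hD hk0 hε h2 h3 h4 h6 h7 h8 (hσle k p h4 h5)
        (lt_of_lt_of_le hεa (hσa k)) hη
    · exact lower_bad_B hD hk0 hε h2 h3 (hσ0 k) (hσ1 k) hη
  have hlow' : ∀ᶠ n : ℕ in atTop, ∀ k ∈ K, Pr (Bn A n) (wt α) (fun S =>
      ((dil k S).card : ℝ) < σ k ^ n * Real.exp (-(2 * ε) * n) / 256) ≤ η :=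
    (Filter.eventually_all_finset K).2 hlow
  have hup : ∀ᶠ n : ℕ in atTop, ∀ k ∈ K, Pr (Bn A n) (wt α) (fun S =>
      ¬ ((dil k S).card : ℝ) ≤ 2 * σ k ^ n * Real.exp (2 * ε * n)) ≤ η := by
    filter_upwards [eventually_exp_large hε (1 / η)] with n hn k hk
    have hk0 : k ≠ 0 := (mem_filter.1 hk).2
    refine (upper_bad hD hk0 hε (hσle k) (hσa k) (hσup k) n).trans ?_
    have h1 : Real.exp (-ε * n) = 1 / Real.exp (ε * n) := by
      rw [one_div, ← Real.exp_neg]; congr 1; ring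
    rw [h1, div_le_iff₀ (Real.exp_pos _)]
    have := mul_le_mul_of_nonneg_left hn hη.le
    have e : η * (1 / η) = 1 := by field_simp
    linarith
  have hnL : ∀ᶠ n : ℕ in atTop, 2 * Real.log 2 + Real.log 256 ≤ e0 * L / 4 * n :=
    ((tendsto_natCast_atTop_atTop (R := ℝ)).const_mul_atTop
      (show 0 < e0 * L / 4 by positivity)).eventually_ge_atTop _
  have hnL2 : ∀ᶠ n : ℕ in atTop, 2 * Real.log 2 + 1 ≤ L * n :=
    ((tendsto_natCast_atTop_atTop (R := ℝ)).const_mul_atTop hL0).eventually_ge_atTop _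
  obtain ⟨n, hn1, hn2, hn3, hn4, hn5⟩ := (hlow'.and (hup.and (hnL.and (hnL2.and
    (eventually_pow_large ha 16))))).exists
  have han : 0 < a ^ n := pow_pos ha0 n
  -- a good set exists
  have hbad : Pr (Bn A n) (wt α) (fun S =>
      (¬ (a ^ n / 2 ≤ S.card ∧ (S.card : ℝ) ≤ 3 * a ^ n / 2)) ∨
      ∃ k ∈ K, (((dil k S).card : ℝ) < σ k ^ n * Real.exp (-(2 * ε) * n) / 256 ∨
        ¬ ((dil k S).card : ℝ) ≤ 2 * σ k ^ n * Real.exp (2 * ε * n))) < 1 := by
    refine lt_of_le_of_lt (Pr_or (unit (n := n) hD) _ _) ?_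
    have h1 := size_bad hD n
    have h2 : (4 : ℝ) / a ^ n ≤ 1 / 4 := by
      rw [div_le_iff₀ han]; linarith
    have h3 := Pr_exists (unit (n := n) hD) K (fun k S =>
      (((dil k S).card : ℝ) < σ k ^ n * Real.exp (-(2 * ε) * n) / 256 ∨
        ¬ ((dil k S).card : ℝ) ≤ 2 * σ k ^ n * Real.exp (2 * ε * n)))
    have h4 : ∀ k ∈ K, Pr (Bn A n) (wt α) (fun S =>
        (((dil k S).card : ℝ) < σ k ^ n * Real.exp (-(2 * ε) * n) / 256 ∨
        ¬ ((dil k S).card : ℝ) ≤ 2 * σ k ^ n * Real.exp (2 * ε * n))) ≤ 2 * η := by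
      intro k hk
      refine (Pr_or (unit (n := n) hD) _ _).trans ?_
      have := hn1 k hk
      have := hn2 k hk
      linarith
    have h5 := Finset.sum_le_sum h4
    rw [Finset.sum_const, nsmul_eq_mul] at h5
    have h6 : (K.card : ℝ) * (2 * η) = 2 * K.card * η := by ring
    rw [h6] at h5
    linarith
  obtain ⟨S, hS, hgood⟩ := exists_of_Pr_lt_one hbad
  rw [not_or, not_not] at hgood
  obtain ⟨⟨hS1, hS2⟩, hS3⟩ := hgood
  push Not at hS3
  obtain ⟨S', hS'c, hS'k⟩ := transfer A N S hS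
  refine ⟨S', ?_, ?_⟩
  · rw [hS'c]
    have : (2 : ℝ) ≤ S.card := by linarith
    exact_mod_cast this
  · intro k hk1 hk2
    obtain ⟨h1, h2⟩ := hS3 k (hKm k hk1 hk2)
    rw [hS'k k hk2, hS'c]
    have hlog2 : Real.log 256 = 8 * Real.log 2 := by
      rw [show (256 : ℝ) = 2 ^ 8 by norm_num, Real.log_pow]; norm_num
    have hl2 : 0 < Real.log 2 := Real.log_pos (by norm_num)
    apply ratio_estimate (L := L) (s := Real.log (σ k)) (n := n) (e := ε) hL0
    · exact Real.log_nonneg (ha.le.trans (hσa k))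
    · have := Real.log_le_log (hσ0 k) (hσ2 k)
      rw [Real.log_pow] at this
      push_cast at this
      exact this
    · have hb := log_bounds (x := (S.card : ℝ)) (y := a ^ n) (c := 2) (C := 2) han (by norm_num)
        hS1 (by linarith) (by norm_num)
      rw [Real.log_pow] at hb
      rw [abs_le]
      exact hb
    · have hσn : 0 < σ k ^ n := pow_pos (hσ0 k) n
      have hb := log_bounds (x := ((dil k S).card : ℝ)) (y := σ k ^ n)
        (c := 256 * Real.exp (2 * ε * n)) (C := 2 * Real.exp (2 * ε * n)) hσn (by positivity)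
        (by
          refine le_trans (le_of_eq ?_) h1
          have : Real.exp (-(2 * ε) * n) = 1 / Real.exp (2 * ε * n) := by
            rw [one_div, ← Real.exp_neg]; congr 1; ring
          rw [this]
          field_simp)
        (by linarith) (by positivity)
      rw [Real.log_pow, Real.log_mul (by norm_num) (Real.exp_pos _).ne', Real.log_exp,
        Real.log_mul (by norm_num) (Real.exp_pos _).ne', Real.log_exp] at hb
      rw [abs_le]
      constructor
      · linarith [hb.1]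
      · have := hb.2
        rw [hlog2]
        linarith
    · exact hε2
    · exact Nat.cast_nonneg n
    · exact hn3
    · linarith
    · exact he0

end Pool.Agent.Lib.MP_0d5181_co
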