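import Pool.Agent.Lib.MP_0d5181_co.Events

set_option autoImplicit false

namespace Pool.Agent.Lib.MP_0d5181_co

open Finset Filter Topology

variable {A : Finset ℤ} {α : ℤ → ℝ} {k : ℤ}

theorem eventually_exp_large {δ : ℝ} (hδ : 0 < δ) (C : ℝ) :
    ∀ᶠ n : ℕ in atTop, C ≤ Real.exp (δ * n) := by
  have h : Tendsto (fun n : ℕ => Real.exp (δ * n)) atTop atTop :=
    Real.tendsto_exp_atTop.comp ((tendsto_natCast_atTop_atTop).const_mul_atTop hδ)
  exact h.eventually_ge_atTop C

theorem eventually_pow_large {a : ℝ} (ha : 1 < a) (C : ℝ) : ∀ᶠ n : ℕ in atTop, C ≤ a ^ n :=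
  (tendsto_pow_atTop_atTop_of_one_lt ha).eventually_ge_atTop C

theorem card_dil_ge {n : ℕ} (X : Finset (Fin n → ℤ)) (S : Finset (Fin n → ℤ)) :
    (X.card : ℝ) - ∑ x ∈ X, (if cnt (II A k x) (TT k x) S = 0 then (1 : ℝ) else 0) ≤
      (dil k S).card := by
  have h1 : X.filter (fun x => ¬ cnt (II A k x) (TT k x) S = 0) ⊆ dil k S := by
    intro x hx
    exact mem_dil_of_cnt (mem_filter.1 hx).2
  have h2 := Finset.card_le_card h1
  have h3 := Finset.card_filter_add_card_filter_not (s := X)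
    (fun x => cnt (II A k x) (TT k x) S = 0)
  rw [Finset.sum_boole]
  have h4 : ((X.filter (fun x => cnt (II A k x) (TT k x) S = 0)).card : ℝ) +
      ((X.filter (fun x => ¬ cnt (II A k x) (TT k x) S = 0)).card : ℝ) = X.card := by
    exact_mod_cast h3
  have h5 : ((X.filter (fun x => ¬ cnt (II A k x) (TT k x) S = 0)).card : ℝ) ≤
      (dil k S).card := by exact_mod_cast h2
  linarith

/-- A point with large mean is rarely missed. -/
theorem miss_le (hD : Data A α) (hk : k ≠ 0) {n : ℕ} {x : Fin n → ℤ} {D : ℝ} (hD0 : 0 < D)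
    (hm : D ≤ mean (wt α) (II A k x) (TT k x)) :
    Ex (Bn A n) (wt α) (fun S => if cnt (II A k x) (TT k x) S = 0 then (1 : ℝ) else 0) ≤
      3 / D := by
  have hvar := Ex_var (Bn A n) (wt α) (unit hD) (II A k x) (TT k x)
    (fun z hz => TT_subset hz) 3 (fun z hz => overlap hk hz)
  set ρ := mean (wt α) (II A k x) (TT k x) with hρ
  have hρ0 : 0 < ρ := lt_of_lt_of_le hD0 hm
  have h1 : Ex (Bn A n) (wt α) (fun S => if cnt (II A k x) (TT k x) S = 0 then (1 : ℝ) else 0) ≤
      Ex (Bn A n) (wt α) (fun S => (1 / ρ ^ 2) * (cnt (II A k x) (TT k x) S - ρ) ^ 2) := by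
    apply Ex_mono (unit hD)
    intro S _
    split_ifs with h
    · rw [h]
      have : (1 / ρ ^ 2) * (0 - ρ) ^ 2 = 1 := by field_simp; ring
      rw [this]
    · positivity
  rw [Ex_const_mul] at h1
  refine h1.trans ?_
  push_cast at hvar
  calc 1 / ρ ^ 2 * Ex (Bn A n) (wt α) (fun S => (cnt (II A k x) (TT k x) S - ρ) ^ 2)
      ≤ 1 / ρ ^ 2 * (3 * ρ) := mul_le_mul_of_nonneg_left hvar (by positivity)
    _ = 3 / ρ := by field_simp
    _ ≤ 3 / D := by
        apply div_le_div_of_nonneg_left (by norm_num) hD0 hm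

theorem lower_bad_A (hD : Data A α) (hk : k ≠ 0) {ε σ q p q' δ : ℝ} (hε : 0 < ε)
    (hqp : q < p) (hpq' : p < q') (hp0 : 0 < p) (hδ : 0 < δ)
    (h1 : Real.exp (δ * (p - q)) * es (BB A k) (lg A α k) q < es (BB A k) (lg A α k) p)
    (h2 : Real.exp (-(ε / p) * (q' - p)) * es (BB A k) (lg A α k) q' <
      es (BB A k) (lg A α k) p)
    (hσp : σ ≤ es (BB A k) (lg A α k) p) (hεσ : Real.exp ε < σ) {η : ℝ} (hη : 0 < η) :
    ∀ᶠ n : ℕ in atTop, Pr (Bn A n) (wt α) (fun S => ((dil k S).card : ℝ) <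
      σ ^ n * Real.exp (-(2 * ε) * n) / 256) ≤ η := by
  have hσ0 : 0 < σ := lt_trans (Real.exp_pos _) hεσ
  have hbig : 1 < σ * Real.exp (-ε) := by
    rw [Real.exp_neg, ← div_eq_mul_inv, one_lt_div (Real.exp_pos _)]
    exact hεσ
  filter_upwards [typical_card (nonempty_BB hD) hqp hpq' hp0 hε h1 h2,
    eventually_exp_large hδ (1 + 6 / η), eventually_pow_large hbig 4] with n hn1 hn2 hn3
  set X0 := (Bn (BB A k) n).filter fun x => δ * n ≤ ell (lg A α k) x ∧
    ell (lg A α k) x ≤ ε / p * n with hX0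
  set X := X0.erase 0 with hX
  have e1 : σ ^ n * Real.exp (-ε * n) = (σ * Real.exp (-ε)) ^ n := by
    rw [mul_pow, ← Real.exp_nat_mul]; congr 2; ring
  have e2 : σ ^ n * Real.exp (-ε * n) / 2 ≤ X0.card := by
    refine le_trans ?_ hn1
    gcongr
  have e3 : (2 : ℝ) ≤ X0.card := by
    rw [e1] at e2; linarith
  have e4 : (X0.card : ℝ) / 2 ≤ X.card := by
    have h3 : X0.card - 1 ≤ X.card := Finset.pred_card_le_card_erase
    have h4 : (2 : ℕ) ≤ X0.card := by exact_mod_cast e3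
    have h5 : X0.card ≤ X.card + 1 := by omega
    have h6 : (X0.card : ℝ) ≤ X.card + 1 := by exact_mod_cast h5
    linarith
  have hXc : (0 : ℝ) < X.card := by linarith
  have hD0 : 0 < 6 / η := by positivity
  have hmiss : ∀ x ∈ X, Ex (Bn A n) (wt α)
      (fun S => if cnt (II A k x) (TT k x) S = 0 then (1 : ℝ) else 0) ≤ 3 / (6 / η) := by
    intro x hx
    rw [hX, mem_erase, hX0, mem_filter] at hx
    apply miss_le hD hk hD0
    have h3 := le_mean (k := k) hD hx.2.1 hx.1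
    have h4 := Real.exp_le_exp.2 hx.2.2.1
    linarith
  have hsum : Ex (Bn A n) (wt α) (fun S => ∑ x ∈ X,
      (if cnt (II A k x) (TT k x) S = 0 then (1 : ℝ) else 0)) ≤ X.card * (3 / (6 / η)) := by
    rw [Ex_sum]
    refine (Finset.sum_le_sum hmiss).trans ?_
    rw [Finset.sum_const, nsmul_eq_mul]
  have hmk := markov (unit (n := n) hD) (fun S => ∑ x ∈ X,
      (if cnt (II A k x) (TT k x) S = 0 then (1 : ℝ) else 0))
      (fun S _ => Finset.sum_nonneg fun _ _ => by split_ifs <;> norm_num)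
      (c := X.card / 2) (by positivity)
      (E := fun S => ((dil k S).card : ℝ) < σ ^ n * Real.exp (-(2 * ε) * n) / 256)
      (fun S _ hE => by
        have h3 := card_dil_ge (A := A) (k := k) X S
        have h4 : Real.exp (-(2 * ε) * n) ≤ Real.exp (-ε * n) := by
          apply Real.exp_le_exp.2
          have : (0 : ℝ) ≤ n := Nat.cast_nonneg n
          nlinarith
        have h5 : σ ^ n * Real.exp (-(2 * ε) * n) ≤ σ ^ n * Real.exp (-ε * n) :=
          mul_le_mul_of_nonneg_left h4 (pow_pos hσ0 n).le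
        have h6 : 0 ≤ σ ^ n * Real.exp (-ε * n) := by positivity
        linarith)
  refine hmk.trans ?_
  rw [div_le_iff₀ (by positivity)]
  refine hsum.trans ?_
  have : (3 : ℝ) / (6 / η) = η / 2 := by field_simp; norm_num
  rw [this]
  apply le_of_eq
  ring

/-- Counting ordered pairs of distinct elements by their value. -/
theorem pairs_le {n : ℕ} {S : Finset (Fin n → ℤ)} (hS : S ∈ (Bn A n).powerset) :
    (S.card : ℝ) * S.card - S.card ≤
      ∑ x ∈ Bn (BB A k) n, cnt (II A k x) (TT k x) S := by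
  rw [mem_powerset] at hS
  have h1 : ∑ x ∈ Bn (BB A k) n, cnt (II A k x) (TT k x) S =
      (((Bn (BB A k) n).sigma fun x => (II A k x).filter fun z => TT k x z ⊆ S).card : ℝ) := by
    rw [Finset.card_sigma]
    push_cast
    apply Finset.sum_congr rfl
    intro x _
    rw [cnt, Finset.sum_boole]
  have h2 : S.offDiag.card ≤
      ((Bn (BB A k) n).sigma fun x => (II A k x).filter fun z => TT k x z ⊆ S).card := by
    apply Finset.card_le_card_of_injOn (fun q => (⟨q.1 + k • q.2, q.2⟩ :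
      Σ _ : (Fin n → ℤ), (Fin n → ℤ)))
    · rintro ⟨y, z⟩ hq
      have hq' : (y, z) ∈ S.offDiag := hq
      rw [Finset.mem_offDiag] at hq'
      obtain ⟨hy, hz, hyz⟩ := hq'
      have e1 : y + k • z - k • z = y := by simp
      simp only [coe_sigma, Set.mem_sigma_iff, mem_coe, mem_filter]
      refine ⟨?_, ?_, ?_⟩
      · rw [mem_Bn]
        intro i
        rw [BB, Finset.mem_image₂]
        exact ⟨y i, mem_Bn.1 (hS hy) i, z i, mem_Bn.1 (hS hz) i, by simp⟩
      · rw [II, mem_filter, e1]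
        exact ⟨hS hz, hS hy, hyz⟩
      · rw [TT, e1]
        intro t ht
        rw [mem_insert, mem_singleton] at ht
        rcases ht with rfl | rfl
        · exact hz
        · exact hy
    · rintro ⟨y, z⟩ _ ⟨y', z'⟩ _ h
      simp only [Sigma.mk.injEq, heq_eq_eq] at h
      obtain ⟨h3, h4⟩ := h
      subst h4
      have : y = y' := by simpa using h3
      rw [this]
  rw [Finset.offDiag_card] at h2
  rw [h1]
  have h3 : S.card * S.card ≤ ((Bn (BB A k) n).sigma fun x => (II A k x).filter fun z =>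
      TT k x z ⊆ S).card + S.card := by omega
  have h4 : (S.card : ℝ) * S.card ≤ (((Bn (BB A k) n).sigma fun x => (II A k x).filter fun z =>
      TT k x z ⊆ S).card : ℝ) + S.card := by exact_mod_cast h3
  linarith

/-- Cauchy-Schwarz. -/
theorem cauchy {n : ℕ} (X : Finset (Fin n → ℤ)) (S : Finset (Fin n → ℤ)) :
    (∑ x ∈ X, cnt (II A k x) (TT k x) S) ^ 2 ≤
      (dil k S).card * ∑ x ∈ X, cnt (II A k x) (TT k x) S ^ 2 := by
  set Y := X.filter (fun x => cnt (II A k x) (TT k x) S ≠ 0) with hY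
  have h1 : ∑ x ∈ X, cnt (II A k x) (TT k x) S = ∑ x ∈ Y, cnt (II A k x) (TT k x) S := by
    rw [hY, Finset.sum_filter_ne_zero]
  have h2 : Y ⊆ dil k S := by
    intro x hx
    exact mem_dil_of_cnt (mem_filter.1 hx).2
  rw [h1]
  refine sq_sum_le_card_mul_sum_sq.trans ?_
  have h3 : (Y.card : ℝ) ≤ (dil k S).card := by exact_mod_cast Finset.card_le_card h2
  have h4 : ∑ x ∈ Y, cnt (II A k x) (TT k x) S ^ 2 ≤ ∑ x ∈ X, cnt (II A k x) (TT k x) S ^ 2 :=
    Finset.sum_le_sum_of_subset_of_nonneg (Finset.filter_subset _ _) fun _ _ _ => sq_nonneg _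
  exact mul_le_mul h3 h4 (Finset.sum_nonneg fun _ _ => sq_nonneg _) (Nat.cast_nonneg _)

theorem sum_mean_le (hD : Data A α) (n : ℕ) (X : Finset (Fin n → ℤ))
    (hX : X ⊆ Bn (BB A k) n) :
    ∑ x ∈ X, mean (wt α) (II A k x) (TT k x) ≤ ∑ x ∈ X, Real.exp (ell (lg A α k) x) :=
  Finset.sum_le_sum fun _ hx => mean_le hD (hX hx)

theorem lower_bad_B (hD : Data A α) (hk : k ≠ 0) {ε σ s : ℝ} (hε : 0 < ε) (hs : 0 < s)
    (h1 : Real.exp (-ε * s) * es (BB A k) (lg A α k) (1 + s) < es (BB A k) (lg A α k) 1)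
    (hσ0 : 0 < σ) (hσ1 : σ ≤ es (BB A k) (lg A α k) 1) {η : ℝ} (hη : 0 < η) :
    ∀ᶠ n : ℕ in atTop, Pr (Bn A n) (wt α) (fun S => ((dil k S).card : ℝ) <
      σ ^ n * Real.exp (-(2 * ε) * n) / 256) ≤ η := by
  rw [es_one hD] at h1 hσ1
  have ha : 1 < mass A α := hD.big
  have ha0 : 0 < mass A α := by linarith
  have ha2 : 0 < mass A α ^ 2 := by positivity
  set θ := Real.exp (-ε * s) * es (BB A k) (lg A α k) (1 + s) with hθ
  have hθ0 : 0 < θ := mul_pos (Real.exp_pos _) (es_pos (nonempty_BB hD) _)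
  have hlim : Tendsto (fun n : ℕ => 16 * (θ / mass A α ^ 2) ^ n) atTop (𝓝 (16 * 0)) :=
    (tendsto_pow_atTop_nhds_zero_of_lt_one (div_nonneg hθ0.le ha2.le)
      ((div_lt_one ha2).2 h1)).const_mul 16
  have hev : ∀ᶠ n : ℕ in atTop, 16 * (θ / mass A α ^ 2) ^ n < η / 3 :=
    hlim.eventually (gt_mem_nhds (by rw [mul_zero]; positivity))
  filter_upwards [hev, eventually_pow_large ha (12 / η), eventually_pow_large ha 4,
    eventually_exp_large hε (12 / η), eventually_exp_large hε 1] with n hn1 hn2 hn3 hn4 hn5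
  set a := mass A α with hadef
  have han : 0 < a ^ n := pow_pos ha0 n
  set X := (Bn (BB A k) n).filter (fun x => ¬ ε * n < ell (lg A α k) x) with hX
  set Y := (Bn (BB A k) n).filter (fun x => ε * n < ell (lg A α k) x) with hY
  -- the three exceptional events
  have hcov : ∀ S ∈ (Bn A n).powerset, ((dil k S).card : ℝ) <
      σ ^ n * Real.exp (-(2 * ε) * n) / 256 →
      ((¬ (a ^ n / 2 ≤ S.card ∧ (S.card : ℝ) ≤ 3 * a ^ n / 2)) ∨
        (a ^ n) ^ 2 / 16 ≤ ∑ x ∈ Y, cnt (II A k x) (TT k x) S) ∨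
        Real.exp (2 * ε * n) * (a ^ n) ^ 2 ≤ ∑ x ∈ X, cnt (II A k x) (TT k x) S ^ 2 := by
    intro S hS hlt
    by_contra hcon
    rw [not_or, not_or, not_not, not_le, not_le] at hcon
    obtain ⟨⟨⟨h2, _⟩, h3⟩, h4⟩ := hcon
    have h5 := pairs_le (k := k) hS
    rw [← Finset.sum_filter_add_sum_filter_not (Bn (BB A k) n)
      (fun x => ε * n < ell (lg A α k) x)] at h5
    have h6 : (a ^ n) ^ 2 / 8 ≤ (S.card : ℝ) * S.card - S.card := by nlinarith
    have h7 : (a ^ n) ^ 2 / 16 ≤ ∑ x ∈ X, cnt (II A k x) (TT k x) S := by linarith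
    have h8 := cauchy (A := A) (k := k) X S
    have h9 : ((a ^ n) ^ 2 / 16) ^ 2 ≤ (∑ x ∈ X, cnt (II A k x) (TT k x) S) ^ 2 :=
      pow_le_pow_left₀ (by positivity) h7 2
    have h10 : ((dil k S).card : ℝ) * ∑ x ∈ X, cnt (II A k x) (TT k x) S ^ 2 ≤
        (σ ^ n * Real.exp (-(2 * ε) * n) / 256) * (Real.exp (2 * ε * n) * (a ^ n) ^ 2) := by
      apply mul_le_mul hlt.le h4.le
      · exact Finset.sum_nonneg fun _ _ => sq_nonneg _
      · positivity
    have h11 : Real.exp (-(2 * ε) * n) * Real.exp (2 * ε * n) = 1 := by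
      rw [← Real.exp_add, ← Real.exp_zero]; congr 1; ring
    have h12 : (σ ^ n * Real.exp (-(2 * ε) * n) / 256) * (Real.exp (2 * ε * n) * (a ^ n) ^ 2) =
        σ ^ n * (a ^ n) ^ 2 / 256 := by
      calc _ = σ ^ n * (a ^ n) ^ 2 / 256 *
            (Real.exp (-(2 * ε) * n) * Real.exp (2 * ε * n)) := by ring
        _ = _ := by rw [h11, mul_one]
    have h13 : σ ^ n ≤ (a ^ n) ^ 2 := by
      rw [← pow_mul, mul_comm n 2, pow_mul]
      exact pow_le_pow_left₀ hσ0.le hσ1 n
    -- strictness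
    have h14 : 0 < (a ^ n) ^ 2 := by positivity
    have hstrict : ((dil k S).card : ℝ) * ∑ x ∈ X, cnt (II A k x) (TT k x) S ^ 2 <
        σ ^ n * (a ^ n) ^ 2 / 256 := by
      rw [← h12]
      calc ((dil k S).card : ℝ) * ∑ x ∈ X, cnt (II A k x) (TT k x) S ^ 2
          ≤ ((dil k S).card : ℝ) * (Real.exp (2 * ε * n) * (a ^ n) ^ 2) :=
            mul_le_mul_of_nonneg_left h4.le (Nat.cast_nonneg _)
        _ < _ := mul_lt_mul_of_pos_right hlt (by positivity)
    have h15 : σ ^ n * (a ^ n) ^ 2 / 256 ≤ ((a ^ n) ^ 2 / 16) ^ 2 := by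
      have := mul_le_mul_of_nonneg_right h13 h14.le
      nlinarith
    linarith
  refine (Pr_mono (unit (n := n) hD) hcov).trans ?_
  refine (Pr_or (unit (n := n) hD) _ _).trans ?_
  have hP1 := size_bad hD n
  have hP2 : Pr (Bn A n) (wt α) (fun S => (a ^ n) ^ 2 / 16 ≤
      ∑ x ∈ Y, cnt (II A k x) (TT k x) S) ≤ η / 3 := by
    have hmk := markov (unit (n := n) hD) (fun S => ∑ x ∈ Y, cnt (II A k x) (TT k x) S)
      (fun S _ => Finset.sum_nonneg fun _ _ => cnt_nonneg _ _ _) (c := (a ^ n) ^ 2 / 16)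
      (by positivity) (E := fun S => (a ^ n) ^ 2 / 16 ≤
        ∑ x ∈ Y, cnt (II A k x) (TT k x) S) (fun S _ h => h)
    refine hmk.trans ?_
    rw [Ex_sum, Finset.sum_congr rfl (fun x _ => Ex_cnt (Bn A n) (wt α) (II A k x) (TT k x)
      (fun z hz => TT_subset hz))]
    have h2 := sum_mean_le (k := k) hD n Y (Finset.filter_subset _ _)
    have h3 := atypical_mass (B := BB A k) (c := lg A α k) (ε := ε) hs n
    rw [← hθ] at h3
    have h4 : ∑ x ∈ Y, mean (wt α) (II A k x) (TT k x) ≤ θ ^ n := h2.trans h3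
    rw [div_le_iff₀ (by positivity)]
    refine h4.trans ?_
    have h5 : 16 * (θ / a ^ 2) ^ n * (a ^ n) ^ 2 = 16 * θ ^ n := by
      rw [div_pow, ← pow_mul, ← pow_mul, mul_comm n 2]
      field_simp
    have h6 : 16 * (θ / a ^ 2) ^ n * (a ^ n) ^ 2 ≤ η / 3 * (a ^ n) ^ 2 :=
      mul_le_mul_of_nonneg_right hn1.le (by positivity)
    rw [h5] at h6
    linarith
  have hP3 : Pr (Bn A n) (wt α) (fun S => Real.exp (2 * ε * n) * (a ^ n) ^ 2 ≤
      ∑ x ∈ X, cnt (II A k x) (TT k x) S ^ 2) ≤ η / 3 := by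
    have hmk := markov (unit (n := n) hD) (fun S => ∑ x ∈ X, cnt (II A k x) (TT k x) S ^ 2)
      (fun S _ => Finset.sum_nonneg fun _ _ => sq_nonneg _)
      (c := Real.exp (2 * ε * n) * (a ^ n) ^ 2)
      (by positivity) (E := fun S => Real.exp (2 * ε * n) * (a ^ n) ^ 2 ≤
        ∑ x ∈ X, cnt (II A k x) (TT k x) S ^ 2) (fun S _ h => h)
    refine hmk.trans ?_
    rw [Ex_sum]
    have h2 : ∀ x ∈ X, Ex (Bn A n) (wt α) (fun S => cnt (II A k x) (TT k x) S ^ 2) ≤
        (Real.exp (ε * n) + 3) * Real.exp (ell (lg A α k) x) := by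
      intro x hx
      have h3 := Ex_cnt_sq (Bn A n) (wt α) (unit hD) (II A k x) (TT k x)
        (fun z hz => TT_subset hz) 3 (fun z hz => overlap hk hz)
      have hx' := mem_filter.1 hx
      have h4 := mean_le (k := k) hD hx'.1
      have h5 := mean_nonneg (A := A) (k := k) hD x
      have h6 : Real.exp (ell (lg A α k) x) ≤ Real.exp (ε * n) :=
        Real.exp_le_exp.2 (not_lt.1 hx'.2)
      push_cast at h3
      refine h3.trans ?_
      have h7 : mean (wt α) (II A k x) (TT k x) ^ 2 ≤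
          Real.exp (ε * n) * Real.exp (ell (lg A α k) x) := by
        rw [sq]
        exact mul_le_mul (h4.trans h6) h4 h5 (Real.exp_pos _).le
      nlinarith
    have h3 : ∑ x ∈ X, (Real.exp (ε * n) + 3) * Real.exp (ell (lg A α k) x) ≤
        (Real.exp (ε * n) + 3) * (a ^ n) ^ 2 := by
      rw [← Finset.mul_sum]
      apply mul_le_mul_of_nonneg_left _ (by positivity)
      calc ∑ x ∈ X, Real.exp (ell (lg A α k) x)
          ≤ ∑ x ∈ Bn (BB A k) n, Real.exp (ell (lg A α k) x) :=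
            Finset.sum_le_sum_of_subset_of_nonneg (Finset.filter_subset _ _)
              fun _ _ _ => (Real.exp_pos _).le
        _ = (a ^ n) ^ 2 := by
            have := sum_exp_ell (BB A k) (lg A α k) n 1
            simp only [one_mul] at this
            rw [this, es_one hD, ← pow_mul, ← pow_mul, mul_comm]
    rw [div_le_iff₀ (by positivity)]
    refine ((Finset.sum_le_sum h2).trans h3).trans ?_
    rw [← mul_assoc]
    apply mul_le_mul_of_nonneg_right _ (by positivity)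
    have h4 : Real.exp (2 * ε * n) = Real.exp (ε * n) * Real.exp (ε * n) := by
      rw [← Real.exp_add]; congr 1; ring
    rw [h4]
    have h5 : 12 ≤ η * Real.exp (ε * n) := by
      have := mul_le_mul_of_nonneg_left hn4 hη.le
      have e : η * (12 / η) = 12 := by field_simp
      linarith
    nlinarith
  have hP1' : (4 : ℝ) / a ^ n ≤ η / 3 := by
    rw [div_le_iff₀ han]
    have := mul_le_mul_of_nonneg_left hn2 hη.le
    have e : η * (12 / η) = 12 := by field_simp
    linarith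
  have hP12 := Pr_or (unit (n := n) hD)
    (fun S => ¬ (a ^ n / 2 ≤ S.card ∧ (S.card : ℝ) ≤ 3 * a ^ n / 2))
    (fun S => (a ^ n) ^ 2 / 16 ≤ ∑ x ∈ Y, cnt (II A k x) (TT k x) S)
  linarith

end Pool.Agent.Lib.MP_0d5181_co
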