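import Mathlib

set_option autoImplicit false

namespace Pool.Agent.Lib.MP_0d5181_co

open Finset

variable {V : Type} [DecidableEq V]

/-- Probability that the random subset of `Ω` with independent inclusion probabilities `w`
equals `S`. -/
noncomputable def mu (Ω : Finset V) (w : V → ℝ) (S : Finset V) : ℝ :=
  (∏ y ∈ S, w y) * ∏ y ∈ Ω \ S, (1 - w y)

/-- Expectation. -/
noncomputable def Ex (Ω : Finset V) (w : V → ℝ) (F : Finset V → ℝ) : ℝ :=
  ∑ S ∈ Ω.powerset, mu Ω w S * F S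

/-- Weights in the unit interval. -/
def Unit01 (Ω : Finset V) (w : V → ℝ) : Prop := ∀ y ∈ Ω, 0 ≤ w y ∧ w y ≤ 1

theorem mu_nonneg {Ω : Finset V} {w : V → ℝ} (hw : Unit01 Ω w) {S : Finset V}
    (hS : S ∈ Ω.powerset) : 0 ≤ mu Ω w S := by
  rw [mem_powerset] at hS
  apply mul_nonneg
  · exact Finset.prod_nonneg fun y hy => (hw y (hS hy)).1
  · exact Finset.prod_nonneg fun y hy => by
      have := (hw y (Finset.sdiff_subset hy)).2
      linarith

theorem Ex_mono {Ω : Finset V} {w : V → ℝ} (hw : Unit01 Ω w) {F G : Finset V → ℝ}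
    (h : ∀ S ∈ Ω.powerset, F S ≤ G S) : Ex Ω w F ≤ Ex Ω w G := by
  apply Finset.sum_le_sum
  intro S hS
  exact mul_le_mul_of_nonneg_left (h S hS) (mu_nonneg hw hS)

theorem Ex_add (Ω : Finset V) (w : V → ℝ) (F G : Finset V → ℝ) :
    Ex Ω w (fun S => F S + G S) = Ex Ω w F + Ex Ω w G := by
  simp [Ex, mul_add, Finset.sum_add_distrib]

theorem Ex_const_mul (Ω : Finset V) (w : V → ℝ) (c : ℝ) (F : Finset V → ℝ) :
    Ex Ω w (fun S => c * F S) = c * Ex Ω w F := by
  simp only [Ex, Finset.mul_sum]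
  exact Finset.sum_congr rfl fun S _ => by ring

theorem Ex_sum {ι : Type} (Ω : Finset V) (w : V → ℝ) (I : Finset ι) (F : ι → Finset V → ℝ) :
    Ex Ω w (fun S => ∑ i ∈ I, F i S) = ∑ i ∈ I, Ex Ω w (F i) := by
  simp only [Ex, Finset.mul_sum]
  rw [Finset.sum_comm]

theorem Ex_subset (Ω : Finset V) (w : V → ℝ) {T : Finset V} (hT : T ⊆ Ω) :
    Ex Ω w (fun S => if T ⊆ S then 1 else 0) = ∏ y ∈ T, w y := by
  have h := Finset.prod_add w (fun y => if y ∈ T then 0 else 1 - w y) Ω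
  have h1 : ∏ y ∈ Ω, (w y + if y ∈ T then 0 else 1 - w y) = ∏ y ∈ T, w y := by
    have h2 : ∀ y ∈ Ω, (w y + if y ∈ T then 0 else 1 - w y) = if y ∈ T then w y else 1 := by
      intro y _
      split_ifs <;> ring
    rw [Finset.prod_congr rfl h2, Finset.prod_ite_mem, Finset.inter_eq_right.2 hT]
  rw [← h1, h, Ex]
  apply Finset.sum_congr rfl
  intro S hS
  rw [mu, mul_assoc]
  congr 1
  split_ifs with hTS
  · rw [mul_one]
    apply Finset.prod_congr rfl
    intro y hy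
    rw [mem_sdiff] at hy
    rw [if_neg (fun h => hy.2 (hTS h))]
  · rw [mul_zero]
    rw [Finset.not_subset] at hTS
    obtain ⟨y, hyT, hyS⟩ := hTS
    symm
    apply Finset.prod_eq_zero (i := y)
    · exact mem_sdiff.2 ⟨hT hyT, hyS⟩
    · rw [if_pos hyT]

theorem Ex_one (Ω : Finset V) (w : V → ℝ) : Ex Ω w (fun _ => 1) = 1 := by
  have := Ex_subset Ω w (T := ∅) (by simp)
  simpa using this

theorem Ex_const (Ω : Finset V) (w : V → ℝ) (c : ℝ) : Ex Ω w (fun _ => c) = c := by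
  have := Ex_const_mul Ω w c (fun _ => 1)
  rw [Ex_one] at this
  simpa using this

/-- The number of indices `i ∈ I` with `T i ⊆ S`. -/
noncomputable def cnt {ι : Type} (I : Finset ι) (T : ι → Finset V) (S : Finset V) : ℝ :=
  ∑ i ∈ I, if T i ⊆ S then 1 else 0

/-- Its mean. -/
noncomputable def mean {ι : Type} (w : V → ℝ) (I : Finset ι) (T : ι → Finset V) : ℝ :=
  ∑ i ∈ I, ∏ y ∈ T i, w y

theorem Ex_cnt {ι : Type} (Ω : Finset V) (w : V → ℝ) (I : Finset ι) (T : ι → Finset V)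
    (hT : ∀ i ∈ I, T i ⊆ Ω) : Ex Ω w (cnt I T) = mean w I T := by
  unfold cnt mean
  rw [Ex_sum]
  exact Finset.sum_congr rfl fun i hi => Ex_subset Ω w (hT i hi)

/-- Second moment bound under sparse dependence. -/
theorem Ex_cnt_sq {ι : Type} [DecidableEq ι] (Ω : Finset V) (w : V → ℝ) (hw : Unit01 Ω w)
    (I : Finset ι) (T : ι → Finset V) (hT : ∀ i ∈ I, T i ⊆ Ω) (d : ℕ)
    (hd : ∀ i ∈ I, (I.filter fun j => ¬ Disjoint (T i) (T j)).card ≤ d) :
    Ex Ω w (fun S => cnt I T S ^ 2) ≤ mean w I T ^ 2 + d * mean w I T := by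
  have hP : ∀ T' : Finset V, T' ⊆ Ω → 0 ≤ ∏ y ∈ T', w y ∧ ∏ y ∈ T', w y ≤ 1 := by
    intro T' hT'
    exact ⟨Finset.prod_nonneg fun y hy => (hw y (hT' hy)).1,
      Finset.prod_le_one (fun y hy => (hw y (hT' hy)).1) (fun y hy => (hw y (hT' hy)).2)⟩
  have h1 : ∀ S, cnt I T S ^ 2 = ∑ i ∈ I, ∑ j ∈ I, if T i ∪ T j ⊆ S then (1 : ℝ) else 0 := by
    intro S
    rw [cnt, sq, Finset.sum_mul_sum]
    apply Finset.sum_congr rfl
    intro i _
    apply Finset.sum_congr rfl
    intro j _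
    have hu := Finset.union_subset_iff (s := T i) (t := T j) (u := S)
    by_cases h1 : T i ⊆ S <;> by_cases h2 : T j ⊆ S
    · rw [if_pos h1, if_pos h2, if_pos (hu.2 ⟨h1, h2⟩), one_mul]
    · rw [if_neg h2, if_neg (fun h => h2 (hu.1 h).2), mul_zero]
    · rw [if_neg h1, if_neg (fun h => h1 (hu.1 h).1), zero_mul]
    · rw [if_neg h1, if_neg (fun h => h1 (hu.1 h).1), zero_mul]
  have h2 : Ex Ω w (fun S => cnt I T S ^ 2) =
      ∑ i ∈ I, ∑ j ∈ I, ∏ y ∈ T i ∪ T j, w y := by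
    simp only [h1]
    rw [Ex_sum]
    apply Finset.sum_congr rfl
    intro i hi
    rw [Ex_sum]
    apply Finset.sum_congr rfl
    intro j hj
    exact Ex_subset Ω w (Finset.union_subset (hT i hi) (hT j hj))
  rw [h2]
  have h3 : ∀ i ∈ I, ∑ j ∈ I, ∏ y ∈ T i ∪ T j, w y ≤
      (∏ y ∈ T i, w y) * mean w I T + d * ∏ y ∈ T i, w y := by
    intro i hi
    have hi0 := (hP (T i) (hT i hi)).1
    rw [← Finset.sum_filter_add_sum_filter_not I (fun j => Disjoint (T i) (T j))]
    apply add_le_add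
    · calc ∑ j ∈ I with Disjoint (T i) (T j), ∏ y ∈ T i ∪ T j, w y
          = ∑ j ∈ I with Disjoint (T i) (T j), (∏ y ∈ T i, w y) * ∏ y ∈ T j, w y := by
            apply Finset.sum_congr rfl
            intro j hj
            rw [mem_filter] at hj
            exact Finset.prod_union hj.2
        _ ≤ ∑ j ∈ I, (∏ y ∈ T i, w y) * ∏ y ∈ T j, w y := by
            apply Finset.sum_le_sum_of_subset_of_nonneg (Finset.filter_subset _ _)
            intro j hj _
            exact mul_nonneg hi0 (hP (T j) (hT j hj)).1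
        _ = (∏ y ∈ T i, w y) * mean w I T := by
            rw [mean, Finset.mul_sum]
    · calc ∑ j ∈ I with ¬ Disjoint (T i) (T j), ∏ y ∈ T i ∪ T j, w y
          ≤ ∑ j ∈ I with ¬ Disjoint (T i) (T j), ∏ y ∈ T i, w y := by
            apply Finset.sum_le_sum
            intro j hj
            rw [mem_filter] at hj
            have h4 : ∏ y ∈ T i ∪ T j, w y = (∏ y ∈ T i, w y) * ∏ y ∈ T j \ T i, w y := by
              rw [← Finset.prod_union Finset.disjoint_sdiff, Finset.union_sdiff_self_eq_union]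
            rw [h4]
            exact mul_le_of_le_one_right hi0
              (hP (T j \ T i) (Finset.sdiff_subset.trans (hT j hj.1))).2
        _ = ((I.filter fun j => ¬ Disjoint (T i) (T j)).card : ℝ) * ∏ y ∈ T i, w y := by
            rw [Finset.sum_const, nsmul_eq_mul]
        _ ≤ d * ∏ y ∈ T i, w y :=
            mul_le_mul_of_nonneg_right (by exact_mod_cast hd i hi) hi0
  refine (Finset.sum_le_sum h3).trans ?_
  rw [Finset.sum_add_distrib, ← Finset.sum_mul, ← Finset.mul_sum]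
  have h5 : ∑ i ∈ I, ∏ y ∈ T i, w y = mean w I T := rfl
  rw [h5, sq]

/-- Variance bound. -/
theorem Ex_var {ι : Type} [DecidableEq ι] (Ω : Finset V) (w : V → ℝ) (hw : Unit01 Ω w)
    (I : Finset ι) (T : ι → Finset V) (hT : ∀ i ∈ I, T i ⊆ Ω) (d : ℕ)
    (hd : ∀ i ∈ I, (I.filter fun j => ¬ Disjoint (T i) (T j)).card ≤ d) :
    Ex Ω w (fun S => (cnt I T S - mean w I T) ^ 2) ≤ d * mean w I T := by
  have h1 : (fun S => (cnt I T S - mean w I T) ^ 2) =
      fun S => cnt I T S ^ 2 + ((-2 * mean w I T) * cnt I T S + mean w I T ^ 2) := by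
    funext S; ring
  rw [h1, Ex_add, Ex_add, Ex_const_mul, Ex_cnt Ω w I T hT, Ex_const]
  have := Ex_cnt_sq Ω w hw I T hT d hd
  nlinarith

open scoped Classical in
/-- Probability of an event. -/
noncomputable def Pr (Ω : Finset V) (w : V → ℝ) (E : Finset V → Prop) : ℝ :=
  Ex Ω w (fun S => if E S then 1 else 0)

theorem Pr_mono {Ω : Finset V} {w : V → ℝ} (hw : Unit01 Ω w) {E E' : Finset V → Prop}
    (h : ∀ S ∈ Ω.powerset, E S → E' S) : Pr Ω w E ≤ Pr Ω w E' := by
  apply Ex_mono hw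
  intro S hS
  by_cases h1 : E S
  · simp [h1, h S hS h1]
  · simp only [h1, if_false]
    split_ifs <;> norm_num

theorem Pr_nonneg {Ω : Finset V} {w : V → ℝ} (hw : Unit01 Ω w) (E : Finset V → Prop) :
    0 ≤ Pr Ω w E := by
  unfold Pr
  refine (Ex_const Ω w 0).symm.le.trans ?_
  apply Ex_mono hw
  intro S _
  split_ifs <;> norm_num

theorem Pr_or {Ω : Finset V} {w : V → ℝ} (hw : Unit01 Ω w) (E E' : Finset V → Prop) :
    Pr Ω w (fun S => E S ∨ E' S) ≤ Pr Ω w E + Pr Ω w E' := by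
  unfold Pr
  rw [← Ex_add]
  apply Ex_mono hw
  intro S _
  by_cases h1 : E S <;> by_cases h2 : E' S <;> simp [h1, h2]

/-- Markov's inequality. -/
theorem markov {Ω : Finset V} {w : V → ℝ} (hw : Unit01 Ω w) (F : Finset V → ℝ)
    (hF : ∀ S ∈ Ω.powerset, 0 ≤ F S) {c : ℝ} (hc : 0 < c) {E : Finset V → Prop}
    (hE : ∀ S ∈ Ω.powerset, E S → c ≤ F S) : Pr Ω w E ≤ Ex Ω w F / c := by
  rw [le_div_iff₀ hc, mul_comm]
  unfold Pr
  rw [← Ex_const_mul]
  apply Ex_mono hw
  intro S hS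
  split_ifs with h
  · rw [mul_one]; exact hE S hS h
  · rw [mul_zero]; exact hF S hS

theorem Pr_exists {ι : Type} {Ω : Finset V} {w : V → ℝ} (hw : Unit01 Ω w) (I : Finset ι)
    (E : ι → Finset V → Prop) :
    Pr Ω w (fun S => ∃ i ∈ I, E i S) ≤ ∑ i ∈ I, Pr Ω w (E i) := by
  classical
  unfold Pr
  rw [← Ex_sum]
  apply Ex_mono hw
  intro S _
  split_ifs with h
  · obtain ⟨i, hi, h⟩ := h
    calc (1 : ℝ) = if E i S then 1 else 0 := by rw [if_pos h]
      _ ≤ _ := Finset.single_le_sum (f := fun i => if E i S then (1 : ℝ) else 0)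
        (fun i _ => by split_ifs <;> norm_num) hi
  · apply Finset.sum_nonneg
    intro i _
    split_ifs <;> norm_num

theorem exists_of_Pr_lt_one {Ω : Finset V} {w : V → ℝ} {E : Finset V → Prop}
    (h : Pr Ω w E < 1) : ∃ S ∈ Ω.powerset, ¬ E S := by
  by_contra hcon
  push Not at hcon
  have : Pr Ω w E = 1 := by
    rw [← Ex_one Ω w]
    unfold Pr Ex
    apply Finset.sum_congr rfl
    intro S hS
    simp only [if_pos (hcon S hS)]
  linarith

end Pool.Agent.Lib.MP_0d5181_co
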