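import Pool.Agent.Lib.MP_0d5181_co.Typical
import Pool.Agent.Lib.MP_0d5181_co.Prob

set_option autoImplicit false

namespace Pool.Agent.Lib.MP_0d5181_co

open Finset Filter Topology

/-- A fractional set with support `A` and total mass larger than one. -/
structure Data (A : Finset ℤ) (α : ℤ → ℝ) : Prop where
  pos : ∀ i ∈ A, 0 < α i
  le_one : ∀ i, α i ≤ 1
  zero : ∀ i, i ∉ A → α i = 0
  big : 1 < ∑ i ∈ A, α i

/-- Product weight. -/
noncomputable def wt (α : ℤ → ℝ) {n : ℕ} (y : Fin n → ℤ) : ℝ := ∏ i, α (y i)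

/-- The fractional dilate `α + k·α`. -/
noncomputable def gam (A : Finset ℤ) (α : ℤ → ℝ) (k m : ℤ) : ℝ := ∑ j ∈ A, α j * α (m - k * j)

/-- Its support. -/
def BB (A : Finset ℤ) (k : ℤ) : Finset ℤ := Finset.image₂ (fun i j => i + k * j) A A

/-- The log weights. -/
noncomputable def lg (A : Finset ℤ) (α : ℤ → ℝ) (k m : ℤ) : ℝ := Real.log (gam A α k m)

/-- The sumset `S + k·S`. -/
def dil {n : ℕ} (k : ℤ) (S : Finset (Fin n → ℤ)) : Finset (Fin n → ℤ) :=
  Finset.image₂ (fun y z => y + k • z) S S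

/-- Indices of the representations of `x`. -/
def II (A : Finset ℤ) (k : ℤ) {n : ℕ} (x : Fin n → ℤ) : Finset (Fin n → ℤ) :=
  (Bn A n).filter fun z => x - k • z ∈ Bn A n ∧ x - k • z ≠ z

/-- The pair used by a representation. -/
def TT (k : ℤ) {n : ℕ} (x z : Fin n → ℤ) : Finset (Fin n → ℤ) := {z, x - k • z}

section
variable {A : Finset ℤ} {α : ℤ → ℝ} {n : ℕ} {k : ℤ}

theorem Data.nonneg (hD : Data A α) (i : ℤ) : 0 ≤ α i := by
  by_cases h : i ∈ A
  · exact (hD.pos i h).le
  · rw [hD.zero i h]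

theorem wt_nonneg (hD : Data A α) (y : Fin n → ℤ) : 0 ≤ wt α y :=
  Finset.prod_nonneg fun i _ => hD.nonneg _

theorem wt_le_one (hD : Data A α) (y : Fin n → ℤ) : wt α y ≤ 1 :=
  Finset.prod_le_one (fun i _ => hD.nonneg _) fun i _ => hD.le_one _

theorem unit (hD : Data A α) : Unit01 (Bn A n) (wt α) :=
  fun y _ => ⟨wt_nonneg hD y, wt_le_one hD y⟩

theorem wt_zero (hD : Data A α) {y : Fin n → ℤ} (hy : y ∉ Bn A n) : wt α y = 0 := by
  rw [mem_Bn] at hy
  push Not at hy
  obtain ⟨i, hi⟩ := hy
  exact Finset.prod_eq_zero (mem_univ i) (hD.zero _ hi)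

theorem sum_wt (A : Finset ℤ) (α : ℤ → ℝ) (n : ℕ) :
    ∑ y ∈ Bn A n, wt α y = (∑ i ∈ A, α i) ^ n := sum_prod_pow A α n

theorem gam_pos (hD : Data A α) {m : ℤ} (hm : m ∈ BB A k) : 0 < gam A α k m := by
  rw [BB, Finset.mem_image₂] at hm
  obtain ⟨i, hi, j, hj, rfl⟩ := hm
  have h1 : 0 < α j * α (i + k * j - k * j) := by
    rw [add_sub_cancel_right]
    exact mul_pos (hD.pos j hj) (hD.pos i hi)
  exact lt_of_lt_of_le h1 (Finset.single_le_sum (f := fun j' => α j' * α (i + k * j - k * j'))
    (fun j' _ => mul_nonneg (hD.nonneg _) (hD.nonneg _)) hj)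

theorem gam_le (hD : Data A α) (m : ℤ) : gam A α k m ≤ ∑ i ∈ A, α i := by
  apply Finset.sum_le_sum
  intro j _
  exact mul_le_of_le_one_right (hD.nonneg _) (hD.le_one _)

theorem prod_gam (A : Finset ℤ) (α : ℤ → ℝ) (k : ℤ) (x : Fin n → ℤ) :
    ∏ i, gam A α k (x i) = ∑ z ∈ Bn A n, wt α z * wt α (x - k • z) := by
  unfold gam Bn wt
  rw [Finset.prod_univ_sum]
  apply Finset.sum_congr rfl
  intro z _
  rw [← Finset.prod_mul_distrib]
  apply Finset.prod_congr rfl
  intro i _
  simp

theorem exp_ell (hD : Data A α) {x : Fin n → ℤ} (hx : x ∈ Bn (BB A k) n) :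
    Real.exp (ell (lg A α k) x) = ∏ i, gam A α k (x i) := by
  rw [mem_Bn] at hx
  rw [ell, Real.exp_sum]
  apply Finset.prod_congr rfl
  intro i _
  rw [lg, Real.exp_log (gam_pos hD (hx i))]

theorem mean_eq (x : Fin n → ℤ) :
    mean (wt α) (II A k x) (TT k x) = ∑ z ∈ II A k x, wt α z * wt α (x - k • z) := by
  unfold mean
  apply Finset.sum_congr rfl
  intro z hz
  rw [II, mem_filter] at hz
  rw [TT, Finset.prod_pair (Ne.symm hz.2.2)]

theorem mean_le (hD : Data A α) {x : Fin n → ℤ} (hx : x ∈ Bn (BB A k) n) :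
    mean (wt α) (II A k x) (TT k x) ≤ Real.exp (ell (lg A α k) x) := by
  rw [exp_ell hD hx, prod_gam, mean_eq]
  apply Finset.sum_le_sum_of_subset_of_nonneg (Finset.filter_subset _ _)
  intro z _ _
  exact mul_nonneg (wt_nonneg hD _) (wt_nonneg hD _)

theorem mean_nonneg (hD : Data A α) (x : Fin n → ℤ) :
    0 ≤ mean (wt α) (II A k x) (TT k x) := by
  rw [mean_eq]
  exact Finset.sum_nonneg fun z _ => mul_nonneg (wt_nonneg hD _) (wt_nonneg hD _)

theorem le_mean (hD : Data A α) {x : Fin n → ℤ} (hx : x ∈ Bn (BB A k) n)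
    (hx0 : x ≠ 0) : Real.exp (ell (lg A α k) x) - 1 ≤ mean (wt α) (II A k x) (TT k x) := by
  rw [exp_ell hD hx, prod_gam, mean_eq]
  rw [← Finset.sum_filter_add_sum_filter_not (Bn A n)
    (fun z => x - k • z ∈ Bn A n ∧ x - k • z ≠ z)]
  have h1 : ∑ z ∈ (Bn A n).filter (fun z => ¬ (x - k • z ∈ Bn A n ∧ x - k • z ≠ z)),
      wt α z * wt α (x - k • z) ≤ 1 := by
    have h2 : ∑ z ∈ (Bn A n).filter (fun z => ¬ (x - k • z ∈ Bn A n ∧ x - k • z ≠ z)),
        wt α z * wt α (x - k • z) ≤ ∑ z ∈ (Bn A n).filter (fun z => x - k • z = z), (1 : ℝ) := by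
      rw [← Finset.sum_filter_of_ne (p := fun z => x - k • z = z)
        (s := (Bn A n).filter (fun z => ¬ (x - k • z ∈ Bn A n ∧ x - k • z ≠ z)))]
      · rw [Finset.filter_filter]
        refine (Finset.sum_le_sum (g := fun _ => (1 : ℝ)) ?_).trans
          (Finset.sum_le_sum_of_subset_of_nonneg ?_ ?_)
        · intro z _
          exact mul_le_one₀ (wt_le_one hD _) (wt_nonneg hD _) (wt_le_one hD _)
        · intro z hz
          rw [mem_filter] at hz ⊢
          exact ⟨hz.1, hz.2.2⟩
        · intro _ _ _; norm_num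
      · intro z hz hne
        rw [mem_filter, not_and_or, not_not] at hz
        rcases hz.2 with h | h
        · exact absurd (by rw [wt_zero hD h, mul_zero]) hne
        · exact h
    refine h2.trans ?_
    rw [Finset.sum_const, nsmul_eq_mul, mul_one]
    have h3 : ((Bn A n).filter (fun z => x - k • z = z)).card ≤ 1 := by
      rw [Finset.card_le_one]
      intro z hz z' hz'
      rw [mem_filter] at hz hz'
      have e1 : x = (1 + k) • z := by
        rw [add_smul, one_smul]
        have := hz.2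
        rw [sub_eq_iff_eq_add] at this
        exact this
      have e2 : x = (1 + k) • z' := by
        rw [add_smul, one_smul]
        have := hz'.2
        rw [sub_eq_iff_eq_add] at this
        exact this
      have hk1 : (1 + k) ≠ 0 := by
        intro h
        rw [h, zero_smul] at e1
        exact hx0 e1
      funext i
      have h4 := congrFun (e1.symm.trans e2) i
      simp only [Pi.smul_apply, smul_eq_mul] at h4
      exact mul_left_cancel₀ hk1 h4
    exact_mod_cast h3
  have h5 : ∑ z ∈ II A k x, wt α z * wt α (x - k • z) =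
    ∑ z ∈ (Bn A n).filter (fun z => (x - k • z ∈ Bn A n ∧ x - k • z ≠ z)),
      wt α z * wt α (x - k • z) := rfl
  rw [h5]
  linarith

theorem TT_subset {x z : Fin n → ℤ} (hz : z ∈ II A k x) : TT k x z ⊆ Bn A n := by
  rw [II, mem_filter] at hz
  intro y hy
  rw [TT, mem_insert, mem_singleton] at hy
  rcases hy with rfl | rfl
  · exact hz.1
  · exact hz.2.1

theorem overlap (hk : k ≠ 0) {x z : Fin n → ℤ} (_hz : z ∈ II A k x) :
    ((II A k x).filter fun z' => ¬ Disjoint (TT k x z) (TT k x z')).card ≤ 3 := by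
  have h1 : ((II A k x).filter fun z' => ¬ Disjoint (TT k x z) (TT k x z')) ⊆
      {z, x - k • z} ∪ (II A k x).filter fun z' => x - k • z' = z := by
    intro z' hz'
    rw [mem_filter, Finset.not_disjoint_iff] at hz'
    obtain ⟨h2, y, h3, h4⟩ := hz'
    rw [TT, mem_insert, mem_singleton] at h3 h4
    rw [mem_union, mem_insert, mem_singleton, mem_filter]
    rcases h3 with h3 | h3 <;> rcases h4 with h4 | h4
    · left; left; rw [← h4, h3]
    · right; exact ⟨h2, by rw [← h4, h3]⟩
    · left; right; rw [← h4, h3]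
    · left; left
      have h5 : x - k • z = x - k • z' := by rw [← h3, h4]
      have h6 : k • z = k • z' := by
        have := congrArg (fun t => x - t) h5
        simpa using this
      funext i
      have h7 := congrFun h6 i
      simp only [Pi.smul_apply, smul_eq_mul] at h7
      exact (mul_left_cancel₀ hk h7).symm
  have h2 : ((II A k x).filter fun z' => x - k • z' = z).card ≤ 1 := by
    rw [Finset.card_le_one]
    intro y hy y' hy'
    rw [mem_filter] at hy hy'
    have h5 : x - k • y = x - k • y' := by rw [hy.2, hy'.2]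
    have h6 : k • y = k • y' := by
      have := congrArg (fun t => x - t) h5
      simpa using this
    funext i
    have h7 := congrFun h6 i
    simp only [Pi.smul_apply, smul_eq_mul] at h7
    exact mul_left_cancel₀ hk h7
  refine (Finset.card_le_card h1).trans ((Finset.card_union_le _ _).trans ?_)
  have h3 := Finset.card_le_two (a := z) (b := x - k • z)
  omega

theorem mem_dil_of_cnt {x : Fin n → ℤ} {S : Finset (Fin n → ℤ)}
    (h : cnt (II A k x) (TT k x) S ≠ 0) : x ∈ dil k S := by
  obtain ⟨z, _, hz⟩ := Finset.exists_ne_zero_of_sum_ne_zero h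
  have hT : TT k x z ⊆ S := by
    by_contra hcon
    exact hz (if_neg hcon)
  rw [dil, Finset.mem_image₂]
  refine ⟨x - k • z, hT (by simp [TT]), z, hT (by simp [TT]), by simp⟩

theorem cnt_nonneg {ι V : Type} [DecidableEq V] (I : Finset ι) (T : ι → Finset V)
    (S : Finset V) : 0 ≤ cnt I T S :=
  Finset.sum_nonneg fun _ _ => by split_ifs <;> norm_num

theorem one_le_cnt {x z : Fin n → ℤ} {S : Finset (Fin n → ℤ)} (hz : z ∈ II A k x)
    (h : TT k x z ⊆ S) : 1 ≤ cnt (II A k x) (TT k x) S := by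
  have := Finset.single_le_sum (f := fun z => if TT k x z ⊆ S then (1 : ℝ) else 0)
    (fun i _ => by split_ifs <;> norm_num) hz
  simp only [if_pos h] at this
  exact this

theorem dil_card_le {S : Finset (Fin n → ℤ)} (hS : S ∈ (Bn A n).powerset) :
    ((dil k S).card : ℝ) ≤ S.card +
      ∑ x ∈ Bn (BB A k) n, if 1 ≤ cnt (II A k x) (TT k x) S then (1 : ℝ) else 0 := by
  rw [mem_powerset] at hS
  have h1 : dil k S ⊆ S.image (fun z => z + k • z) ∪
      (Bn (BB A k) n).filter (fun x => 1 ≤ cnt (II A k x) (TT k x) S) := by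
    intro x hx
    rw [dil, Finset.mem_image₂] at hx
    obtain ⟨y, hy, z, hz, rfl⟩ := hx
    rw [mem_union]
    by_cases hyz : y = z
    · left
      rw [mem_image]
      exact ⟨z, hz, by rw [hyz]⟩
    · right
      rw [mem_filter]
      have e1 : y + k • z - k • z = y := by simp
      refine ⟨?_, ?_⟩
      · rw [mem_Bn]
        intro i
        rw [BB, Finset.mem_image₂]
        exact ⟨y i, mem_Bn.1 (hS hy) i, z i, mem_Bn.1 (hS hz) i, by simp⟩
      · apply one_le_cnt (z := z)
        · rw [II, mem_filter, e1]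
          exact ⟨hS hz, hS hy, hyz⟩
        · rw [TT, e1]
          intro t ht
          rw [mem_insert, mem_singleton] at ht
          rcases ht with rfl | rfl
          · exact hz
          · exact hy
  have h2 := (Finset.card_le_card h1).trans (Finset.card_union_le _ _)
  have h3 : (S.image (fun z => z + k • z)).card ≤ S.card := Finset.card_image_le
  have h4 : ((dil k S).card : ℝ) ≤ S.card + (((Bn (BB A k) n).filter (fun x =>
      1 ≤ cnt (II A k x) (TT k x) S)).card : ℝ) := by
    have : (dil k S).card ≤ S.card + ((Bn (BB A k) n).filter (fun x =>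
      1 ≤ cnt (II A k x) (TT k x) S)).card := by omega
    exact_mod_cast this
  rw [Finset.card_filter] at h4
  push_cast at h4
  exact h4

end

end Pool.Agent.Lib.MP_0d5181_co
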