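import Pool.Agent.Lib.MP_0d5181_co.Analysis

set_option autoImplicit false

namespace Pool.Agent.Lib.MP_0d5181_co

open Finset Filter Topology

variable {ι : Type} {B : Finset ι} {c : ι → ℝ}

/-- The product space. -/
def Bn (B : Finset ι) (n : ℕ) : Finset (Fin n → ι) := Fintype.piFinset fun _ => B

theorem mem_Bn {n : ℕ} {x : Fin n → ι} : x ∈ Bn B n ↔ ∀ i, x i ∈ B := by
  simp [Bn, Fintype.mem_piFinset]

/-- The log weight. -/
noncomputable def ell (c : ι → ℝ) {n : ℕ} (x : Fin n → ι) : ℝ := ∑ i, c (x i)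

theorem sum_prod_pow (B : Finset ι) (g : ι → ℝ) (n : ℕ) :
    ∑ x ∈ Bn B n, ∏ i, g (x i) = (∑ m ∈ B, g m) ^ n := by
  have h := Finset.prod_univ_sum (fun _ : Fin n => B) (fun _ m => g m)
  rw [Bn, ← h]
  simp

theorem sum_exp_ell (B : Finset ι) (c : ι → ℝ) (n : ℕ) (p : ℝ) :
    ∑ x ∈ Bn B n, Real.exp (p * ell c x) = (es B c p) ^ n := by
  rw [es, ← sum_prod_pow]
  apply Finset.sum_congr rfl
  intro x _
  rw [← Real.exp_sum, ell, Finset.mul_sum]

/-- Eventually the tail terms are small. -/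
theorem eventually_small {a b F : ℝ} (ha : 0 ≤ a) (hb : 0 ≤ b) (haF : a < F) (hbF : b < F) :
    ∀ᶠ n : ℕ in atTop, a ^ n + b ^ n ≤ F ^ n / 2 := by
  have hF : 0 < F := lt_of_le_of_lt ha haF
  have h1 : Tendsto (fun n : ℕ => (a / F) ^ n + (b / F) ^ n) atTop (𝓝 (0 + 0)) :=
    (tendsto_pow_atTop_nhds_zero_of_lt_one (div_nonneg ha hF.le) ((div_lt_one hF).2 haF)).add
      (tendsto_pow_atTop_nhds_zero_of_lt_one (div_nonneg hb hF.le) ((div_lt_one hF).2 hbF))
  have h2 : ∀ᶠ n : ℕ in atTop, (a / F) ^ n + (b / F) ^ n < 1 / 2 :=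
    h1.eventually (gt_mem_nhds (by norm_num))
  filter_upwards [h2] with n hn
  have hFn : 0 < F ^ n := pow_pos hF n
  rw [div_pow, div_pow, ← add_div, div_lt_iff₀ hFn] at hn
  linarith

/-- Many points of moderately large weight. -/
theorem typical_card (hB : B.Nonempty) {ε q p q' δ : ℝ} (hqp : q < p)
    (hpq' : p < q') (hp0 : 0 < p) (hε : 0 < ε)
    (h1 : Real.exp (δ * (p - q)) * es B c q < es B c p)
    (h2 : Real.exp (-(ε / p) * (q' - p)) * es B c q' < es B c p) :
    ∀ᶠ n : ℕ in atTop, (es B c p) ^ n * Real.exp (-ε * n) / 2 ≤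
      (((Bn B n).filter fun x => δ * n ≤ ell c x ∧ ell c x ≤ ε / p * n).card : ℝ) := by
  filter_upwards [eventually_small (mul_nonneg (Real.exp_pos _).le (es_pos (c := c) hB q).le)
    (mul_nonneg (Real.exp_pos _).le (es_pos (c := c) hB q').le) h1 h2] with n hn
  set X := (Bn B n).filter fun x => δ * n ≤ ell c x ∧ ell c x ≤ ε / p * n with hX
  have hsplit : (es B c p) ^ n ≤ ∑ x ∈ X, Real.exp (p * ell c x) +
      (∑ x ∈ Bn B n, Real.exp (q * ell c x) * Real.exp (δ * (p - q) * n) +
        ∑ x ∈ Bn B n, Real.exp (q' * ell c x) * Real.exp (-(ε / p) * (q' - p) * n)) := by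
    rw [← sum_exp_ell, ← Finset.sum_add_distrib]
    rw [← Finset.sum_filter_add_sum_filter_not (Bn B n)
      (fun x => δ * n ≤ ell c x ∧ ell c x ≤ ε / p * n)]
    gcongr
    refine (Finset.sum_le_sum (g := fun x => Real.exp (q * ell c x) * Real.exp (δ * (p - q) * n) +
      Real.exp (q' * ell c x) * Real.exp (-(ε / p) * (q' - p) * n)) ?_).trans
      (Finset.sum_le_sum_of_subset_of_nonneg (Finset.filter_subset _ _) ?_)
    · intro x hx
      rw [mem_filter] at hx
      have h3 := hx.2
      rw [not_and_or, not_le, not_le] at h3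
      rw [← Real.exp_add, ← Real.exp_add]
      rcases h3 with h3 | h3
      · have : p * ell c x ≤ q * ell c x + δ * (p - q) * n := by nlinarith
        have h4 := Real.exp_le_exp.2 this
        have h5 := (Real.exp_pos (q' * ell c x + -(ε / p) * (q' - p) * n)).le
        linarith
      · have : p * ell c x ≤ q' * ell c x + -(ε / p) * (q' - p) * n := by nlinarith
        have h4 := Real.exp_le_exp.2 this
        have h5 := (Real.exp_pos (q * ell c x + δ * (p - q) * n)).le
        linarith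
    · intro x _ _
      positivity
  rw [← Finset.sum_mul, ← Finset.sum_mul, sum_exp_ell, sum_exp_ell] at hsplit
  have h3 : Real.exp (δ * (p - q) * n) = Real.exp (δ * (p - q)) ^ n := by
    rw [← Real.exp_nat_mul]; congr 1; ring
  have h4 : Real.exp (-(ε / p) * (q' - p) * n) = Real.exp (-(ε / p) * (q' - p)) ^ n := by
    rw [← Real.exp_nat_mul]; congr 1; ring
  rw [h3, h4, ← mul_pow, ← mul_pow, mul_comm (es B c q), mul_comm (es B c q')] at hsplit
  have h5 : ∑ x ∈ X, Real.exp (p * ell c x) ≤ X.card * Real.exp (ε * n) := by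
    have : ∑ x ∈ X, Real.exp (p * ell c x) ≤ ∑ x ∈ X, Real.exp (ε * n) := by
      apply Finset.sum_le_sum
      intro x hx
      rw [hX, mem_filter] at hx
      apply Real.exp_le_exp.2
      have := mul_le_mul_of_nonneg_left hx.2.2 hp0.le
      calc p * ell c x ≤ p * (ε / p * n) := this
        _ = ε * n := by field_simp
    rw [Finset.sum_const, nsmul_eq_mul] at this
    exact this
  have h6 : es B c p ^ n / 2 ≤ X.card * Real.exp (ε * n) := by linarith
  have h7 : Real.exp (-ε * n) * Real.exp (ε * n) = 1 := by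
    rw [← Real.exp_add, ← Real.exp_zero]; congr 1; ring
  have h8 := Real.exp_pos (-ε * n)
  calc es B c p ^ n * Real.exp (-ε * n) / 2 = (es B c p ^ n / 2) * Real.exp (-ε * n) := by ring
    _ ≤ (X.card * Real.exp (ε * n)) * Real.exp (-ε * n) :=
        mul_le_mul_of_nonneg_right h6 h8.le
    _ = X.card * (Real.exp (-ε * n) * Real.exp (ε * n)) := by ring
    _ = X.card := by rw [h7, mul_one]

/-- Little mass on points of large weight. -/
theorem atypical_mass {ε s : ℝ} (hs : 0 < s) (n : ℕ) :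
    ∑ x ∈ (Bn B n).filter (fun x => ε * n < ell c x), Real.exp (ell c x) ≤
      (Real.exp (-ε * s) * es B c (1 + s)) ^ n := by
  rw [mul_pow, ← sum_exp_ell, Finset.mul_sum]
  have h1 : Real.exp (-ε * s) ^ n = Real.exp (-ε * s * n) := by
    rw [← Real.exp_nat_mul]; congr 1; ring
  rw [h1]
  refine (Finset.sum_le_sum (g := fun x => Real.exp (-ε * s * n) *
    Real.exp ((1 + s) * ell c x)) ?_).trans
      (Finset.sum_le_sum_of_subset_of_nonneg (Finset.filter_subset _ _) ?_)
  · intro x hx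
    rw [mem_filter] at hx
    rw [← Real.exp_add]
    apply Real.exp_le_exp.2
    have := mul_lt_mul_of_pos_left hx.2 hs
    nlinarith
  · intro x _ _
    positivity

end Pool.Agent.Lib.MP_0d5181_co
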